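import Pool.Agent.K7.H43.PT.Space
import Pool.Agent.K7.H43.PW.Fin

/-!
Large multiplicities, all dimensions: a bound which is linear in `t`.
-/

set_option autoImplicit false

namespace Pool.Agent.K7.H43.PT

open MvPolynomial Finset Pool.Agent.H938R2 Pool.Agent.TH176.FB Pool.Agent.Y55.Col

/-- One group. -/
def one (q0 s q : ℕ) : ℕ := if q = q0 then s else 0

lemma sum_one {L q0 s : ℕ} (h : q0 < L) (F : ℕ → ℕ) :
    ∑ q ∈ range L, one q0 s q * F q = s * F q0 := by
  rw [Finset.sum_eq_single q0]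
  · rw [one, if_pos rfl]
  · intro q _ hq
    rw [one, if_neg hq, zero_mul]
  · intro h1
    exact absurd (Finset.mem_range.2 h) h1

lemma sum_one' {L q0 s : ℕ} (h : q0 < L) : ∑ q ∈ range L, one q0 s q = s := by
  have h1 := sum_one (s := s) h fun _ => 1
  simpa using h1

/-- Emptiness in the middle range. -/
lemma mid_zero {n t m c E s g : ℕ} (hn : 1 ≤ n) (ht : 1 ≤ t) (hc : c < t) (hm : 1 ≤ m)
    (hg : 2 * (t * E + c) + n + 2 + g = n * t)
    (hs : 2 * (n * (n + E) * s) ≤ t ^ n * g)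
    (h0 : t ^ n * (t * E + c + 1) + s * (n * E + n ^ 2) ≤ s * (m + 1)) :
    ForGeneral (n + 2) (t ^ (n + 1)) (fun p =>
      Module.finrank ℂ (forms (n + 2) (t * m + (t * E + c)) (fun _ => m) p) = 0) := by
  have hq : n + E - 1 < m + E := by
    by_contra hcon
    have h1 : m + 1 ≤ n * E + n ^ 2 := by
      have h7 : n ≤ n ^ 2 := by nlinarith
      have h8 : m + 1 ≤ n := by omega
      exact (h8.trans h7).trans (Nat.le_add_left _ _)
    have h2 : s * (m + 1) ≤ s * (n * E + n ^ 2) := Nat.mul_le_mul_left _ h1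
    have h3 : 0 < t ^ n * (t * E + c + 1) := Nat.mul_pos (pow_pos (by omega) _) (by omega)
    omega
  have hns : n * s ≤ t ^ (n + 1) := by
    have h1 : t ^ n * g ≤ t ^ n * (n * t) := Nat.mul_le_mul_left _ (by omega)
    have h2 : t ^ n * (n * t) = n * t ^ (n + 1) := by ring
    have h3 : n * (n * s) ≤ n * t ^ (n + 1) := by
      have h4 : n * (n * s) ≤ 2 * (n * (n + E) * s) := by
        nlinarith [Nat.zero_le (n * E * s), Nat.zero_le (n * n * s)]
      omega
    exact Nat.le_of_mul_le_mul_left h3 hn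
  refine crit_zeroE (r := t ^ (n + 1)) (E := E) (one (n + E - 1) s) ht hc hm
    (by rw [sum_one' hq]; exact hns) ?_
  intro k hk
  unfold SkE
  rw [sum_one hq, sum_one' hq]
  obtain ⟨r, hr⟩ : ∃ r, r = t ^ (n + 1) := ⟨_, rfl⟩
  have hH0 : Hc n t (t * E + c) ≤ t ^ n * (t * E + c + 1) := Hc_le n t _
  have hsm : s * (n * E + n ^ 2) ≤ s * (m + 1) := by omega
  rcases Nat.lt_or_ge E k with hkE | hkE
  swap
  · have h1 : Hc n t (t * k + c) ≤ Hc n t (t * E + c) :=
      Hc_mono n t (Nat.add_le_add_right (Nat.mul_le_mul_left _ hkE) _)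
    rw [if_pos (by omega)]
    refine le_trans ?_ (Nat.le_add_right _ _)
    refine (h1.trans hH0).trans ?_
    rcases Nat.eq_zero_or_pos s with hs0 | hs0
    · subst hs0
      omega
    have h2 : n * E + n ^ 2 ≤ m + 1 := Nat.le_of_mul_le_mul_left hsm hs0
    have h3 : m + 1 - (n * E + n ^ 2) ≤ m + E - k - n * E := by
      have : 1 ≤ n ^ 2 := Nat.one_le_pow _ _ hn
      omega
    refine le_trans ?_ (Nat.mul_le_mul_left s h3)
    rw [Nat.mul_sub]
    omega
  obtain ⟨j, rfl⟩ := Nat.exists_eq_add_of_lt hkE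
  have e1 : E + j + 1 - E = j + 1 := by omega
  rw [e1, ← hr]
  rw [← hr] at hns
  obtain ⟨r', hr'⟩ := Nat.exists_eq_add_of_le hns
  have e2 : r - n * s = r' := by omega
  rw [e2]
  have e3 : t * (E + j + 1) + c = t * E + c + t * (j + 1) := by ring
  rw [e3]
  rcases Nat.lt_or_ge (n + E - 1) (E + j + 1) with h1 | h1
  · rw [if_neg (by omega)]
    have h2 := J24.two_Hc n t (t * E + c + t * (j + 1)) (by
      have h3 : t * n ≤ t * (j + 1) := Nat.mul_le_mul_left _ (by omega)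
      have h4 : n * (t - 1) ≤ n * t := Nat.mul_le_mul_left _ (Nat.sub_le _ _)
      have h5 : t * n = n * t := Nat.mul_comm _ _
      omega)
    have h3 : 2 * (t * E + c + t * (j + 1) + 1) - n * (t - 1) + g = 2 * (t * (j + 1)) := by
      have h4 : n * (t - 1) + n = n * t := by
        obtain ⟨t', rfl⟩ : ∃ t', t = t' + 1 := ⟨t - 1, by omega⟩
        rw [Nat.add_sub_cancel]
        ring
      have h5 : t * n ≤ t * (j + 1) := Nat.mul_le_mul_left _ (by omega)
      have h6 : t * n = n * t := Nat.mul_comm _ _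
      omega
    have h4 : 2 * Hc n t (t * E + c + t * (j + 1)) + t ^ n * g = 2 * (r * (j + 1)) := by
      rw [h2, ← Nat.mul_add, h3, hr]
      ring
    have h5 : n * (j + 1) ≤ n * (E + j + 1 - (n + E - 1) - 1 - E) + n * (n + E) := by
      rw [← Nat.mul_add]
      exact Nat.mul_le_mul_left _ (by omega)
    have h6 : n * (j + 1) * s ≤ n * (E + j + 1 - (n + E - 1) - 1 - E) * s + n * (n + E) * s := by
      rw [← Nat.add_mul]
      exact Nat.mul_le_mul_right _ h5
    have h7 : r * (j + 1) = n * (j + 1) * s + r' * (j + 1) := by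
      rw [hr']; ring
    have h8 : s * (n * (E + j + 1 - (n + E - 1) - 1 - E)) =
        n * (E + j + 1 - (n + E - 1) - 1 - E) * s := by ring
    rw [h8]
    omega
  · rw [if_pos h1]
    have h2 := Hc_add_mul n t (t * E + c) (j + 1)
    rw [← hr] at h2
    rcases Nat.eq_zero_or_pos s with hs0 | hs0
    · subst hs0
      have h3 : 0 < t ^ n * (t * E + c + 1) := Nat.mul_pos (pow_pos (by omega) _) (by omega)
      omega
    have h3 : n * E + n ^ 2 ≤ m + 1 := Nat.le_of_mul_le_mul_left hsm hs0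
    have hjn : (n + 1) * (j + 1) + 1 ≤ n ^ 2 := by
      obtain ⟨i, hi⟩ : ∃ i, n = j + 2 + i := ⟨n - (j + 2), by omega⟩
      subst hi
      nlinarith [Nat.zero_le (i * j), Nat.zero_le (i * i)]
    have h4 : m + 1 - (n * E + n ^ 2) + n * (j + 1) ≤ m + E - (E + j + 1) - n * E := by
      have h5 : (n + 1) * (j + 1) = n * (j + 1) + (j + 1) := by ring
      omega
    have h5 := Nat.mul_le_mul_left s h4
    rw [Nat.mul_add, Nat.mul_sub] at h5
    have h7 : r * (j + 1) = s * (n * (j + 1)) + r' * (j + 1) := by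
      rw [hr']; ring
    omega

/-- Large multiplicities. -/
theorem big {n t m : ℕ} (d : ℕ) (hn : 1 ≤ n) (ht : 2 ≤ t) (hm : 4 * n ^ 3 * t ≤ m) :
    ForGeneral (n + 2) (t ^ (n + 1)) (fun p =>
      Module.finrank ℂ (forms (n + 2) d (fun _ => m) p) =
        (d + (n + 1)).choose (n + 1) - t ^ (n + 1) * (m + n).choose (n + 1)) := by
  have hn3 : 1 ≤ n ^ 3 := Nat.one_le_pow _ _ hn
  have hm1 : 1 ≤ m := by
    have : 1 * 1 ≤ 4 * n ^ 3 * t := Nat.mul_le_mul (by omega) (by omega)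
    omega
  by_cases h1 : n * t ^ (n + 1) ≤ m
  · refine PW.uniform' n t m d ht hm1 (Or.inl (Or.inl ?_))
    rw [Nat.add_sub_cancel]
    exact h1
  by_cases h2 : d < t * m
  · exact PW.uniform' n t m d ht hm1 (Or.inl (Or.inr (Or.inl h2)))
  by_cases h3 : 2 * t * m + n * t ≤ 2 * d + (n + 1) + 1
  · refine PW.uniform' n t m d ht hm1 (Or.inl (Or.inr (Or.inr (Or.inl ?_))))
    rw [Nat.add_sub_cancel]
    exact h3
  push Not at h1 h2 h3
  obtain ⟨cf, hcf⟩ := Nat.exists_eq_add_of_le h2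
  obtain ⟨g, hg⟩ : ∃ g, 2 * cf + n + 2 + (g + 1) = n * t := by
    refine ⟨n * t - (2 * cf + n + 3), ?_⟩
    have e1 : 2 * t * m = 2 * (t * m) := by ring
    omega
  have h4 : 4 * n ^ 2 < t ^ n := by
    have e1 : n * t * (4 * n ^ 2) < n * t * t ^ n := by
      calc n * t * (4 * n ^ 2) = 4 * n ^ 3 * t := by ring
        _ ≤ m := hm
        _ < n * t ^ (n + 1) := h1
        _ = n * t * t ^ n := by ring
    exact lt_of_mul_lt_mul_left e1 (Nat.zero_le _)
  obtain ⟨E, hE⟩ : ∃ E, E = cf / t := ⟨_, rfl⟩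
  obtain ⟨c, hc⟩ : ∃ c, c = cf % t := ⟨_, rfl⟩
  have hcE : t * E + c = cf := by rw [hE, hc]; exact Nat.div_add_mod cf t
  have hct : c < t := by rw [hc]; exact Nat.mod_lt _ (by omega)
  have hEn : 2 * E ≤ n := by
    by_contra hcon
    have e1 : t * (n + 1) ≤ t * (2 * E) := Nat.mul_le_mul_left _ (by omega)
    have e2 : t * (n + 1) = n * t + t := by ring
    have e3 : t * (2 * E) = 2 * (t * E) := by ring
    omega
  obtain ⟨s, hs⟩ : ∃ s, s = t ^ n * (g + 1) / (2 * (n * (n + E))) := ⟨_, rfl⟩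
  have hden : 0 < 2 * (n * (n + E)) := by positivity
  have hs1 : 2 * (n * (n + E)) * s ≤ t ^ n * (g + 1) := by
    rw [hs]
    exact Nat.mul_div_le _ _
  have hs2 : t ^ n * (g + 1) < 2 * (n * (n + E)) * s + 2 * (n * (n + E)) := by
    rw [hs]
    have e1 := Nat.div_add_mod (t ^ n * (g + 1)) (2 * (n * (n + E)))
    have e2 := Nat.mod_lt (t ^ n * (g + 1)) hden
    omega
  have hden2 : 2 * (n * (n + E)) ≤ 3 * n ^ 2 := by nlinarith
  have htn : t ^ n ≤ t ^ n * (g + 1) := Nat.le_mul_of_pos_right _ (by omega)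
  have hspos : 1 ≤ s := by
    by_contra hcon
    have e1 : s = 0 := by omega
    rw [e1, mul_zero] at hs2
    omega
  have hs3 : t ^ n * (g + 1) ≤ 6 * n ^ 2 * s := by
    have e1 : 2 * (n * (n + E)) * 1 ≤ 2 * (n * (n + E)) * s := Nat.mul_le_mul_left _ hspos
    have e2 : 2 * (n * (n + E)) * s ≤ 3 * n ^ 2 * s := Nat.mul_le_mul_right _ hden2
    have e3 : 6 * n ^ 2 * s = 3 * n ^ 2 * s + 3 * n ^ 2 * s := by ring
    omega
  have key : t ^ n * (t * E + c + 1) + s * (n * E + n ^ 2) ≤ s * (m + 1) := by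
    rw [hcE]
    have e1 : 2 * (t ^ n * (cf + 1)) ≤ t ^ n * (g + 1) * (n * t) := by
      calc 2 * (t ^ n * (cf + 1)) = t ^ n * (2 * cf + 2) := by ring
        _ ≤ t ^ n * (n * t) := Nat.mul_le_mul_left _ (by omega)
        _ ≤ t ^ n * (g + 1) * (n * t) := Nat.mul_le_mul_right _ htn
    have e2 : t ^ n * (g + 1) * (n * t) ≤ 6 * n ^ 2 * s * (n * t) := Nat.mul_le_mul_right _ hs3
    have e3 : 6 * n ^ 2 * s * (n * t) = 2 * (s * (3 * n ^ 3 * t)) := by ring
    have e4 : 3 * n ^ 3 * t + (n * E + n ^ 2) ≤ m + 1 := by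
      have e5 : n * E + n ^ 2 ≤ n ^ 3 * t := by
        have e6 : n ^ 3 * 2 ≤ n ^ 3 * t := Nat.mul_le_mul_left _ ht
        have e7 : 2 * (n * E) ≤ n ^ 2 := by nlinarith
        have e8 : n ^ 2 ≤ n ^ 3 := Nat.pow_le_pow_right hn (by omega)
        omega
      have e6 : 4 * n ^ 3 * t = 3 * n ^ 3 * t + n ^ 3 * t := by ring
      omega
    have e5 := Nat.mul_le_mul_left s e4
    rw [Nat.mul_add] at e5
    omega
  have hfin := mid_zero (n := n) (t := t) (m := m) (c := c) (E := E) (s := s) (g := g + 1) hn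
    (by omega) hct hm1 (by rw [hcE]; exact hg) (by
      have e1 : 2 * (n * (n + E) * s) = 2 * (n * (n + E)) * s := by ring
      rw [e1]; exact hs1) key
  rw [hcE, ← hcf] at hfin
  exact PW.max_of_zero hfin

end Pool.Agent.K7.H43.PT
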