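import Pool.Agent.K7.H43.PT.Model
import Pool.Agent.K7.H43.PW.Gen
import Pool.Agent.Y55.Col.Ind

/-!
The criterion: dimension bounds for points at different scales.
-/

set_option autoImplicit false

namespace Pool.Agent.K7.H43.PT

open MvPolynomial Finset Pool.Agent.H938R2 Pool.Agent.TH176.FB Pool.Agent.TH176.FB.J13
  Pool.Agent.TH176.FB.J17 Pool.Agent.Y55.Col

/-- The exponents of degree at most `m`. -/
noncomputable def Gm (n m : ℕ) : Finset (Fin n →₀ ℕ) := (Finsupp.finite_of_degree_le m).toFinset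

lemma mem_Gm {n m : ℕ} {γ : Fin n →₀ ℕ} : γ ∈ Gm n m ↔ γ.degree ≤ m := by
  unfold Gm
  rw [Set.Finite.mem_toFinset]
  rfl

lemma card_Gm (n m : ℕ) : (Gm (n + 1) m).card = (m + (n + 1)).choose (n + 1) := by
  have h1 : Gm (n + 1) m = B (n + 1) (m + 1) := by
    ext a
    rw [mem_Gm, mem_B]
    omega
  rw [h1, card_B]
  unfold cnt
  congr 1
  omega

/-- The indices with given last exponents. -/
noncomputable def fib (n t k : ℕ) (γ : Fin n →₀ ℕ) : Finset (Fin (n + 1) →₀ ℕ) := by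
  classical
  exact (Gm (n + 1) k).filter fun α => be t α = γ

lemma mem_fib {n t k : ℕ} {γ : Fin n →₀ ℕ} {α : Fin (n + 1) →₀ ℕ} :
    α ∈ fib n t k γ ↔ α.degree ≤ k ∧ be t α = γ := by
  classical
  unfold fib
  rw [Finset.mem_filter, mem_Gm]

/-- The index with given remainders. -/
noncomputable def mk {n t : ℕ} (γ : Fin n →₀ ℕ) (d : Fin n → Fin t) (x : ℕ) :
    Fin (n + 1) →₀ ℕ :=
  Finsupp.equivFunOnFinite.symm (Fin.snoc (fun i => (d i : ℕ) + t * γ i) x)

lemma mk_castSucc {n t : ℕ} (γ : Fin n →₀ ℕ) (d : Fin n → Fin t) (x : ℕ) (i : Fin n) :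
    mk γ d x i.castSucc = (d i : ℕ) + t * γ i := by
  simp [mk]

lemma mk_last {n t : ℕ} (γ : Fin n →₀ ℕ) (d : Fin n → Fin t) (x : ℕ) :
    mk γ d x (Fin.last n) = x := by
  simp [mk]

lemma be_mk {n t : ℕ} (ht : 1 ≤ t) (γ : Fin n →₀ ℕ) (d : Fin n → Fin t) (x : ℕ) :
    be t (mk γ d x) = γ := by
  ext i
  rw [be_apply, mk_castSucc, Nat.add_mul_div_left _ _ (by omega), Nat.div_eq_of_lt (d i).isLt,
    zero_add]

lemma le_card_fib {n t k : ℕ} (ht : 1 ≤ t) (γ : Fin n →₀ ℕ) (hγ : t * γ.degree ≤ k) :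
    Hc n t (k - t * γ.degree) ≤ (fib n t k γ).card := by
  classical
  have h1 : Hc n t (k - t * γ.degree) = ((Finset.univ : Finset (Fin n → Fin t)).sigma
      fun d => Finset.range (k - t * γ.degree + 1 - ∑ i, (d i : ℕ))).card := by
    rw [Finset.card_sigma]
    unfold Hc
    refine Finset.sum_congr rfl fun d _ => ?_
    rw [Finset.card_range]
  rw [h1]
  refine Finset.card_le_card_of_injOn (fun p => mk γ p.1 p.2) (fun p hp => ?_)
    (fun p hp q hq he => ?_)
  · rw [Finset.mem_coe, Finset.mem_sigma, Finset.mem_range] at hp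
    rw [Finset.mem_coe, mem_fib]
    refine ⟨?_, be_mk ht _ _ _⟩
    rw [degree_snoc, mk_last, Finset.sum_congr rfl fun i _ => mk_castSucc γ p.1 p.2 i,
      Finset.sum_add_distrib, ← Finset.mul_sum, ← Finsupp.degree_eq_sum]
    have := hp.2
    omega
  · obtain ⟨d, x⟩ := p
    obtain ⟨d', x'⟩ := q
    have h2 : x = x' := by
      have h3 := DFunLike.congr_fun he (Fin.last n)
      simpa only [mk_last] using h3
    have h4 : d = d' := by
      funext i
      have h3 := DFunLike.congr_fun he i.castSucc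
      simp only [mk_castSucc] at h3
      exact Fin.ext (by omega)
    rw [h2, h4]

lemma sum_fib {n t m c E : ℕ} (hc : c < t * (E + 1)) :
    ∑ γ ∈ Gm n (m + E), (fib n t (t * m + c) γ).card =
      (t * m + c + (n + 1)).choose (n + 1) := by
  classical
  rw [← card_Gm]
  have h1 : Gm (n + 1) (t * m + c) = (Gm n (m + E)).biUnion (fib n t (t * m + c)) := by
    ext α
    rw [Finset.mem_biUnion, mem_Gm]
    constructor
    · intro h
      refine ⟨be t α, ?_, mem_fib.2 ⟨h, rfl⟩⟩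
      rw [mem_Gm]
      have h1 : t * (be t α).degree ≤ t * m + c := (t_be_le α).trans h
      by_contra h2
      have h3 : t * (m + (E + 1)) ≤ t * (be t α).degree := Nat.mul_le_mul_left _ (by omega)
      rw [Nat.mul_add] at h3
      omega
    · rintro ⟨γ, _, h⟩
      exact (mem_fib.1 h).1
  rw [h1, Finset.card_biUnion]
  intro γ _ γ' _ hne
  change Disjoint _ _
  rw [Finset.disjoint_left]
  intro α hα hα'
  exact hne ((mem_fib.1 hα).2.symm.trans (mem_fib.1 hα').2)

lemma sum_level (n m L : ℕ) (hL : m ≤ L) :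
    ∑ γ ∈ Gm n L, (m - γ.degree) = (m + n).choose (n + 1) := by
  classical
  have h1 : (B (n + 1) m).card = (m + n).choose (n + 1) := card_B n m
  rw [← h1]
  have h2 : ∑ γ ∈ Gm n L, (m - γ.degree) =
      ((Gm n L).sigma fun γ => range (m - γ.degree)).card := by
    rw [Finset.card_sigma]
    refine Finset.sum_congr rfl fun γ _ => ?_
    rw [Finset.card_range]
  rw [h2]
  refine Finset.card_nbij' (fun p => Finsupp.cons p.2 p.1) (fun a => ⟨Finsupp.tail a, a 0⟩)
    ?_ ?_ ?_ ?_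
  · intro p hp
    rw [Finset.mem_coe, Finset.mem_sigma, mem_Gm, Finset.mem_range] at hp
    rw [Finset.mem_coe, mem_B, J13.degree_cons]
    omega
  · intro a ha
    rw [Finset.mem_coe, mem_B] at ha
    rw [Finset.mem_coe, Finset.mem_sigma, mem_Gm, Finset.mem_range]
    have h3 : a.degree = a 0 + (Finsupp.tail a).degree := by
      rw [← J13.degree_cons, Finsupp.cons_tail]
    simp only
    omega
  · rintro ⟨γ, x⟩ _
    simp
  · intro a _
    simp

/-- The rank in the slice. -/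
noncomputable def rr {n : ℕ} (m E : ℕ) (ν : (Fin n →₀ ℕ) → ℕ) (l : Fin n) (w : ℕ)
    (γ : Fin n →₀ ℕ) : ℕ :=
  rk (fun x => ν (γ.update l x) + w * x) (m + E - γ.degree + γ l) (γ l)

/-- The sorted position. -/
noncomputable def Ps {n : ℕ} (m E : ℕ) (ν : (Fin n →₀ ℕ) → ℕ) (l : Fin n) (w : ℕ)
    (γ : Fin n →₀ ℕ) : Fin n →₀ ℕ :=
  γ.update l (m + E - γ.degree + γ l - rr m E ν l w γ)

lemma rr_le {n m E : ℕ} {ν : (Fin n →₀ ℕ) → ℕ} {l : Fin n} {w : ℕ} {γ : Fin n →₀ ℕ} :
    rr m E ν l w γ ≤ m + E - γ.degree + γ l := rk_le (Nat.le_add_left _ _)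

lemma Ps_degree {n m E : ℕ} {ν : (Fin n →₀ ℕ) → ℕ} {l : Fin n} {w : ℕ} {γ : Fin n →₀ ℕ}
    (hγ : γ.degree ≤ m + E) : (Ps m E ν l w γ).degree + rr m E ν l w γ = m + E := by
  have h1 := PW.degree_update γ l (m + E - γ.degree + γ l - rr m E ν l w γ)
  have h2 := rr_le (m := m) (E := E) (ν := ν) (l := l) (w := w) (γ := γ)
  have h3 := PW.le_degree γ l
  unfold Ps
  omega

lemma update_update {n : ℕ} (γ : Fin n →₀ ℕ) (l : Fin n) (x y : ℕ) :
    (γ.update l x).update l y = γ.update l y := by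
  ext l'
  rw [Finsupp.update_apply, Finsupp.update_apply, Finsupp.update_apply]
  split_ifs <;> rfl

lemma Ps_inj {n m E : ℕ} {ν : (Fin n →₀ ℕ) → ℕ} {l : Fin n} {w : ℕ} {γ γ' : Fin n →₀ ℕ}
    (hν : ∀ (γ : Fin n →₀ ℕ), γ.degree ≤ m + E → ∀ x ≤ m + E - γ.degree + γ l,
      ∀ y ≤ m + E - γ.degree + γ l,
      ν (γ.update l x) + w * x = ν (γ.update l y) + w * y → x = y)
    (hγ : γ.degree ≤ m + E) (hγ' : γ'.degree ≤ m + E)
    (h : Ps m E ν l w γ = Ps m E ν l w γ') : γ = γ' := by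
  have h1 : ∀ x, γ.update l x = γ'.update l x := by
    intro x
    have h2 := congrArg (fun δ : Fin n →₀ ℕ => δ.update l x) h
    simp only [Ps, update_update] at h2
    exact h2
  have e1 := Ps_degree (ν := ν) (l := l) (w := w) hγ
  have e2 := Ps_degree (ν := ν) (l := l) (w := w) hγ'
  rw [h] at e1
  have e3 : rr m E ν l w γ = rr m E ν l w γ' := by omega
  have h3 := PW.degree_update γ l 0
  have h4 := PW.degree_update γ' l 0
  rw [h1] at h3
  have h5 := PW.le_degree γ l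
  have h6 := PW.le_degree γ' l
  have eJ : m + E - γ'.degree + γ' l = m + E - γ.degree + γ l := by omega
  unfold rr at e3
  rw [eJ] at e3
  have e4 : (fun x => ν (γ'.update l x) + w * x) = fun x => ν (γ.update l x) + w * x := by
    funext x
    rw [h1]
  rw [e4] at e3
  have e5 : γ l = γ' l := by
    apply hν γ hγ _ (Nat.le_add_left _ _) _ (by omega)
    have e6 : γ' l ≤ m + E - γ.degree + γ l := by omega
    rcases lt_trichotomy (ν (γ.update l (γ l)) + w * γ l)
      (ν (γ.update l (γ' l)) + w * γ' l) with h7 | h7 | h7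
    · have := rk_lt (σ := fun x => ν (γ.update l x) + w * x) (Nat.le_add_left _ _ :
        γ l ≤ m + E - γ.degree + γ l) h7
      omega
    · exact h7
    · have := rk_lt (σ := fun x => ν (γ.update l x) + w * x) e6 h7
      omega
  rw [← Finsupp.update_self γ l, h1, e5, Finsupp.update_self]

lemma sum_cn {n m E : ℕ} {ν : (Fin n →₀ ℕ) → ℕ} {l : Fin n} {w : ℕ}
    (hν : ∀ (γ : Fin n →₀ ℕ), γ.degree ≤ m + E → ∀ x ≤ m + E - γ.degree + γ l,
      ∀ y ≤ m + E - γ.degree + γ l,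
      ν (γ.update l x) + w * x = ν (γ.update l y) + w * y → x = y) :
    ∑ γ ∈ Gm n (m + E), cn m E ν l w γ = ∑ γ ∈ Gm n (m + E), (m - γ.degree) := by
  classical
  have hinj : Set.InjOn (Ps m E ν l w) (Gm n (m + E)) := fun γ hγ γ' hγ' h =>
    Ps_inj hν (mem_Gm.1 hγ) (mem_Gm.1 hγ') h
  have himg : (Gm n (m + E)).image (Ps m E ν l w) = Gm n (m + E) := by
    apply Finset.eq_of_subset_of_card_le
    · intro γ hγ
      rw [Finset.mem_image] at hγ
      obtain ⟨γ', h1, rfl⟩ := hγ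
      rw [mem_Gm] at h1 ⊢
      have := Ps_degree (ν := ν) (l := l) (w := w) h1
      omega
    · rw [Finset.card_image_of_injOn hinj]
  have h1 : ∑ γ ∈ Gm n (m + E), (m - γ.degree) =
      ∑ γ ∈ Gm n (m + E), (m - (Ps m E ν l w γ).degree) := by
    rw [← Finset.sum_image (f := fun γ : Fin n →₀ ℕ => m - γ.degree) hinj, himg]
  rw [h1]
  refine Finset.sum_congr rfl fun γ hγ => ?_
  have := Ps_degree (ν := ν) (l := l) (w := w) (mem_Gm.1 hγ)
  unfold cn
  unfold rr at this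
  omega

/-- The hypothesis that the sizes in a slice are different. -/
def Hν {n N : ℕ} (m E : ℕ) (dir : Fin N → Fin n) (wt : Fin N → ℕ) (ν : (Fin n →₀ ℕ) → ℕ) :
    Prop :=
  ∀ (j : Fin N) (γ : Fin n →₀ ℕ), γ.degree ≤ m + E →
      ∀ x ≤ m + E - γ.degree + γ (dir j), ∀ y ≤ m + E - γ.degree + γ (dir j),
        ν (γ.update (dir j) x) + wt j * x = ν (γ.update (dir j) y) + wt j * y → x = y

/-- The number of conditions on the coefficient of `s ^ γ`. -/
noncomputable def Sg {n N : ℕ} (m E r : ℕ) (s : Fin N → ℕ) (dir : Fin N → Fin n)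
    (wt : Fin N → ℕ) (ν : (Fin n →₀ ℕ) → ℕ) (γ : Fin n →₀ ℕ) : ℕ :=
  ∑ j, s j * cn m E ν (dir j) (wt j) γ + (r - ∑ j, s j) * (m - γ.degree)

lemma sum_Sg {n N m E r : ℕ} (s : Fin N → ℕ) (dir : Fin N → Fin n) (wt : Fin N → ℕ)
    (ν : (Fin n →₀ ℕ) → ℕ) (hr : ∑ j, s j ≤ r) (hν : Hν m E dir wt ν) :
    ∑ γ ∈ Gm n (m + E), Sg m E r s dir wt ν γ = r * (m + n).choose (n + 1) := by
  unfold Sg
  rw [Finset.sum_add_distrib, Finset.sum_comm, ← Finset.mul_sum,
    sum_level n m (m + E) (Nat.le_add_right _ _)]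
  have h1 : ∀ j ∈ (Finset.univ : Finset (Fin N)),
      ∑ γ ∈ Gm n (m + E), s j * cn m E ν (dir j) (wt j) γ = s j * (m + n).choose (n + 1) := by
    intro j _
    rw [← Finset.mul_sum, sum_cn (hν j), sum_level n m (m + E) (Nat.le_add_right _ _)]
  rw [Finset.sum_congr rfl h1, ← Finset.sum_mul, ← add_mul]
  congr 1
  omega

/-- Emptiness. -/
theorem gen_zero {n t m c r N E : ℕ} (s : Fin N → ℕ) (dir : Fin N → Fin n) (wt : Fin N → ℕ)
    (ν : (Fin n →₀ ℕ) → ℕ) (ht : 1 ≤ t) (hc : c < t) (hm : 1 ≤ m) (hr : ∑ j, s j ≤ r)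
    (hν : Hν m E dir wt ν)
    (h : ∀ γ : Fin n →₀ ℕ, γ.degree ≤ m + E →
      Hc n t (t * (m + E - γ.degree) + c) ≤ Sg m E r s dir wt ν γ) :
    ForGeneral (n + 2) r (fun p =>
      Module.finrank ℂ (forms (n + 2) (t * m + (t * E + c)) (fun _ => m) p) = 0) := by
  obtain ⟨P, hP⟩ := modelT (r := r) (c := t * E + c) (E := E) s dir wt ν ht
    (by rw [Nat.mul_add]; omega) hr hν ∅ (fun γ B hγ hB => by
    have h1 := card_fibre (k := t * m + (t * E + c)) ht γ B (fun α hα => (hB α hα).1)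
      (fun α hα => (hB α hα).2.1)
    refine h1.trans ?_
    have h2 : t * m + (t * E + c) - t * γ.degree = t * (m + E - γ.degree) + c := by
      obtain ⟨i, hi⟩ := Nat.exists_eq_add_of_le hγ
      rw [hi, Nat.add_sub_cancel_left]
      have h3 : t * m + (t * E + c) = t * (m + E) + c := by ring
      rw [h3, hi, mul_add]
      omega
    rw [h2]
    exact h γ hγ)
  obtain ⟨p, Φ, hΦ⟩ := PW.limitD t (t * m + (t * E + c)) (m - 1) ht P ∅ (by simp)
    (fun G hG hGA h => hP G hG hGA fun i a ha => h i a (by omega))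
  have h1 := PW.general_le hm p Φ hΦ
  rw [Fintype.card_coe, Finset.card_empty] at h1
  exact h1.mono fun p hp => by omega

/-- Independence. -/
theorem gen_ind {n t m c r N E : ℕ} (s : Fin N → ℕ) (dir : Fin N → Fin n) (wt : Fin N → ℕ)
    (ν : (Fin n →₀ ℕ) → ℕ) (ht : 1 ≤ t) (hc : c < t) (hm : 1 ≤ m) (hr : ∑ j, s j ≤ r)
    (hν : Hν m E dir wt ν)
    (h : ∀ γ : Fin n →₀ ℕ, γ.degree ≤ m + E →
      Sg m E r s dir wt ν γ ≤ Hc n t (t * (m + E - γ.degree) + c)) :
    ForGeneral (n + 2) r (fun p =>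
      Module.finrank ℂ (forms (n + 2) (t * m + (t * E + c)) (fun _ => m) p) +
        r * (m + n).choose (n + 1) = (t * m + (t * E + c) + (n + 1)).choose (n + 1)) := by
  classical
  have hcE : t * E + c < t * (E + 1) := by
    rw [Nat.mul_add]
    omega
  have e0 : t * m + (t * E + c) = t * (m + E) + c := by ring
  have hfib : ∀ γ ∈ Gm n (m + E), Sg m E r s dir wt ν γ ≤
      (fib n t (t * m + (t * E + c)) γ).card := by
    intro γ hγ
    rw [mem_Gm] at hγ
    refine (h γ hγ).trans ?_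
    have h2 : t * (m + E - γ.degree) + c = t * m + (t * E + c) - t * γ.degree := by
      obtain ⟨i, hi⟩ := Nat.exists_eq_add_of_le hγ
      rw [e0, hi, Nat.add_sub_cancel_left, mul_add]
      omega
    rw [h2]
    refine le_card_fib ht γ ?_
    have := Nat.mul_le_mul_left t hγ
    omega
  have hch : ∀ γ : Fin n →₀ ℕ, ∃ A' : Finset (Fin (n + 1) →₀ ℕ),
      A' ⊆ fib n t (t * m + (t * E + c)) γ ∧
      A'.card = (fib n t (t * m + (t * E + c)) γ).card - Sg m E r s dir wt ν γ :=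
    fun γ => Finset.exists_subset_card_eq (Nat.sub_le _ _)
  choose A' hA1 hA2 using hch
  let A : Finset (Fin (n + 1) →₀ ℕ) := (Gm n (m + E)).biUnion A'
  have hAd : ∀ α ∈ A, α.degree ≤ t * m + (t * E + c) := by
    intro α hα
    obtain ⟨γ, _, hγ⟩ := Finset.mem_biUnion.1 hα
    exact (mem_fib.1 (hA1 γ hγ)).1
  have hAcard : A.card + r * (m + n).choose (n + 1) ≤
      (t * m + (t * E + c) + (n + 1)).choose (n + 1) := by
    rw [← sum_fib (n := n) hcE, ← sum_Sg s dir wt ν hr hν]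
    have h1 : A.card ≤ ∑ γ ∈ Gm n (m + E), (A' γ).card := Finset.card_biUnion_le
    have h2 : ∑ γ ∈ Gm n (m + E), (A' γ).card + ∑ γ ∈ Gm n (m + E), Sg m E r s dir wt ν γ =
        ∑ γ ∈ Gm n (m + E), (fib n t (t * m + (t * E + c)) γ).card := by
      rw [← Finset.sum_add_distrib]
      refine Finset.sum_congr rfl fun γ hγ => ?_
      rw [hA2]
      have := hfib γ hγ
      omega
    omega
  obtain ⟨P, hP⟩ := modelT (r := r) (c := t * E + c) (E := E) s dir wt ν ht hcE hr hν A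
    (fun γ B hγ hB => by
    have h3 : B ⊆ fib n t (t * m + (t * E + c)) γ \ A' γ := by
      intro α hα
      obtain ⟨h4, h5, h6⟩ := hB α hα
      rw [Finset.mem_sdiff]
      exact ⟨mem_fib.2 ⟨h5, h4⟩, fun h7 => h6 (Finset.mem_biUnion.2 ⟨γ, mem_Gm.2 hγ, h7⟩)⟩
    refine (Finset.card_le_card h3).trans ?_
    rw [Finset.card_sdiff_of_subset (hA1 _), hA2]
    have := hfib γ (mem_Gm.2 hγ)
    unfold Sg at this ⊢
    omega)
  obtain ⟨p, Φ, hΦ⟩ := PW.limitD t (t * m + (t * E + c)) (m - 1) ht P A hAd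
    (fun G hG hGA h => hP G hG hGA fun i a ha => h i a (by omega))
  have h1 := PW.general_le hm p Φ hΦ
  rw [Fintype.card_coe] at h1
  refine (h1.and (forGeneral_ne_zero (by omega))).mono fun p hp => ?_
  have h8 : (t * m + (t * E + c) + (n + 1)).choose (n + 1) ≤
      Module.finrank ℂ (forms (n + 2) (t * m + (t * E + c)) (fun _ : Fin r => m) p) +
        ∑ _i : Fin r, (m + (n + 1) - 1).choose (n + 1) :=
    finrank_forms_ge (n + 1) (t * m + (t * E + c)) (fun _ : Fin r => m) p hp.2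
  have h9 : m + (n + 1) - 1 = m + n := by omega
  have h10 := hp.1
  rw [Finset.sum_const, Finset.card_univ, Fintype.card_fin, smul_eq_mul,
    h9] at h8
  omega

end Pool.Agent.K7.H43.PT
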