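import Pool.Agent.K7.H43.PT.Fin3
import Pool.Agent.K7.H43.PT.Big

/-!
Perfect power numbers of points of the same multiplicity, and the criterion: final forms.
-/

set_option autoImplicit false

namespace Pool.Agent.K7.H43.PT

open MvPolynomial Finset Pool.Agent.H938R2 Pool.Agent.TH176.FB Pool.Agent.Y55.Col

/-- The middle range. -/
def Cmid (r t m d : ℕ) : Prop :=
  ∃ c s, d = t * m + c ∧ 2 * c + r + 1 ≤ (r - 1) * t ∧
    2 * (r - 1) * (r - 1 + c / t) * s ≤ t ^ (r - 1) * ((r - 1) * t - (2 * c + r + 1)) ∧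
    t ^ (r - 1) * (c + 1) + s * ((r - 1) * (c / t) + (r - 1) ^ 2) ≤ s * (m + 1)

/-- The cases. -/
def CT (r t m d : ℕ) : Prop :=
  PW.Cn r t m d ∨ (r = 3 ∧ C3 t m d) ∨ 4 * (r - 1) ^ 3 * t ≤ m ∨ Cmid r t m d

lemma mid {n t m d : ℕ} (ht : 2 ≤ t) (hm : 1 ≤ m) (h : Cmid (n + 1) t m d) :
    ForGeneral (n + 2) (t ^ (n + 1)) (fun p =>
      Module.finrank ℂ (forms (n + 2) d (fun _ => m) p) =
        (d + (n + 1)).choose (n + 1) - t ^ (n + 1) * (m + n).choose (n + 1)) := by
  obtain ⟨c, s, hd, h1, h2, h3⟩ := h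
  rw [Nat.add_sub_cancel] at h1 h2 h3
  have hn : 1 ≤ n := by
    by_contra hcon
    have : n = 0 := by omega
    subst this
    omega
  have hcE : t * (c / t) + c % t = c := Nat.div_add_mod c t
  have hct : c % t < t := Nat.mod_lt _ (by omega)
  have e1 : 2 * c + (n + 1) + 1 = 2 * c + n + 2 := by ring
  rw [e1] at h1 h2
  have hfin := mid_zero (n := n) (t := t) (m := m) (c := c % t) (E := c / t) (s := s)
    (g := n * t - (2 * c + n + 2)) hn (by omega) hct hm (by rw [hcE]; omega) (by
      have e2 : 2 * (n * (n + c / t) * s) = 2 * n * (n + c / t) * s := by ring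
      rw [e2]; exact h2) (by rw [hcE]; exact h3)
  rw [hcE, ← hd] at hfin
  exact PW.max_of_zero hfin

theorem uniformT (k t m d : ℕ) (ht : 2 ≤ t) (hm : 1 ≤ m) (h : CT (k + 1) t m d) :
    ForGeneral (k + 2) (t ^ (k + 1)) (fun p =>
      Module.finrank ℂ (forms (k + 2) d (fun _ => m) p) =
        (d + (k + 1)).choose (k + 1) - t ^ (k + 1) * (m + k).choose (k + 1)) := by
  rcases h with h | ⟨hr, h⟩ | h | h
  · exact PW.uniform' k t m d ht hm h
  · obtain rfl : k = 2 := by omega
    exact space t m d ht hm h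
  · rcases Nat.eq_zero_or_pos k with hk | hk
    · subst hk
      refine PW.uniform' 0 t m d ht hm (Or.inl (Or.inl ?_))
      simp
    · rw [Nat.add_sub_cancel] at h
      exact big d hk ht h
  · exact mid ht hm h

/-- Emptiness, also for one point. -/
theorem uniform_zeroT (k t m d : ℕ) (ht : 1 ≤ t) (h : CT (k + 1) t m d)
    (hd : (d + (k + 1)).choose (k + 1) ≤ t ^ (k + 1) * (m + k).choose (k + 1)) :
    ForGeneral (k + 2) (t ^ (k + 1)) (fun p =>
      Module.finrank ℂ (forms (k + 2) d (fun _ => m) p) = 0) := by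
  have hm : 1 ≤ m := by
    by_contra hcon
    have h1 : m = 0 := by omega
    subst h1
    rw [zero_add, Nat.choose_succ_self, mul_zero] at hd
    have := Nat.choose_pos (show k + 1 ≤ d + (k + 1) by omega)
    omega
  rcases Nat.eq_or_lt_of_le ht with ht1 | ht2
  · subst ht1
    have hdm : d < m := by
      by_contra hcon
      rw [one_pow, one_mul] at hd
      have h1 : (m + k).choose (k + 1) < (m + k + 1).choose (k + 1) := by
        rw [Nat.choose_succ_succ' (m + k) k]
        have := Nat.choose_pos (show k ≤ m + k by omega)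
        omega
      have h2 : (m + k + 1).choose (k + 1) ≤ (d + (k + 1)).choose (k + 1) :=
        Nat.choose_le_choose _ (by omega)
      omega
    refine (Pool.Agent.TH176.FB.fat_low k 1 m d le_rfl (by omega)).mono fun p hp => ?_
    rw [hp]
    omega
  · refine (uniformT k t m d ht2 hm h).mono fun p hp => ?_
    rw [hp]
    omega

/-- Independence, from the dimension. -/
theorem ind_of_gen {n N μ d : ℕ}
    (h : ForGeneral (n + 2) N (fun p =>
      Module.finrank ℂ (forms (n + 2) d (fun _ => μ) p) =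
        (d + (n + 1)).choose (n + 1) - N * (μ + n).choose (n + 1)))
    (hle : N * (μ + n).choose (n + 1) ≤ (d + (n + 1)).choose (n + 1)) :
    Ind n (d + 1) (Multiset.replicate N μ) := by
  have e1 : cnt n (d + 1) = (d + (n + 1)).choose (n + 1) := by
    unfold cnt
    congr 1
    omega
  obtain ⟨P, hP1, hP2⟩ := (h.and forGeneral_zero_coord).exists
  refine ⟨(d + (n + 1)).choose (n + 1) - N * (μ + n).choose (n + 1), ?_, ?_⟩
  · have h2 := emp_of_finrank (E := n + 1) (D := d + 1)
      (s := (d + (n + 1)).choose (n + 1) - N * (μ + n).choose (n + 1))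
      (J := Fin N) (fun _ => μ)
      (fun i (j : Fin (n + 1)) => (P i 0)⁻¹ * P i j.succ) (by
        rw [← hP1]
        have h3 : Vd (d + 1) (fun _ : Fin N => μ)
            (fun i (j : Fin (n + 1)) => (P i 0)⁻¹ * P i j.succ) ≤
            Submodule.map (Elim.dehom n).toLinearMap (forms (n + 2) d (fun _ => μ) P) := by
          intro f hf
          rw [mem_Vd] at hf
          exact ⟨hom d f, hom_mem _ P hP2 hf.1 hf.2, dehom_hom f⟩
        refine (Submodule.finrank_mono h3).trans ?_
        exact Submodule.finrank_map_le _ _)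
    rwa [Multiset.map_const', Finset.card_val, Finset.card_univ, Fintype.card_fin] at h2
  · rw [Multiset.map_replicate, Multiset.sum_replicate, e1, smul_eq_mul]
    unfold cnt
    omega

/-- Perfect power numbers of points. -/
theorem ind_powersT (n t μ d : ℕ) (ht : 1 ≤ t) (hc : CT (n + 1) t μ d)
    (h : t ^ (n + 1) * (μ + n).choose (n + 1) ≤ (d + (n + 1)).choose (n + 1)) :
    Ind n (d + 1) (Multiset.replicate (t ^ (n + 1)) μ) := by
  rcases Nat.eq_or_lt_of_le ht with ht1 | ht2
  · refine PW.ind_powers' n t μ d ht (Or.inl ?_) h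
    subst ht1
    by_cases hdm : d < 1 * μ
    · exact Or.inr (Or.inl hdm)
    · push Not at hdm
      by_cases hn : n = 0
      · subst hn
        exact Or.inl (by simp)
      · refine Or.inr (Or.inr (Or.inl ?_))
        rw [Nat.add_sub_cancel]
        omega
  rcases Nat.eq_zero_or_pos μ with hμ | hμ
  · subst hμ
    refine ⟨cnt n (d + 1), ?_, by simp [cnt]⟩
    have h2 := emp_of_finrank (E := n + 1) (D := d + 1) (s := cnt n (d + 1))
      (J := Fin (t ^ (n + 1))) (fun _ => 0)
      (fun _ _ => 0) (by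
        refine (Submodule.finrank_mono (inf_le_left :
          Vd (d + 1) _ _ ≤ restrictSupport ℂ {a : Fin (n + 1) →₀ ℕ | a.degree < d + 1})).trans ?_
        rw [finrank_restrictSupport, ← card_B n (d + 1), B, Nat.card_coe_set_eq,
          Set.ncard_eq_toFinset_card _ (Finsupp.finite_of_degree_lt (d + 1))])
    rwa [Multiset.map_const', Finset.card_val, Finset.card_univ, Fintype.card_fin] at h2
  · exact ind_of_gen (uniformT n t μ d ht2 hμ hc) h

end Pool.Agent.K7.H43.PT
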