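import Mathlib

/-!
The virtual dimension is not close to zero: numbers.
-/

set_option autoImplicit false

namespace Pool.Agent.K7.H43.PT

/-- A bounded quantifier. -/
def allB (f : ℕ → Bool) : ℕ → Bool
  | 0 => true
  | n + 1 => f n && allB f n

lemma allB_spec {f : ℕ → Bool} {n : ℕ} (h : allB f n = true) : ∀ i < n, f i = true := by
  induction n with
  | zero => intro i hi; omega
  | succ n ih =>
    intro i hi
    rw [allB, Bool.and_eq_true] at h
    rcases Nat.lt_or_ge i n with h1 | h1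
    · exact ih h.2 i h1
    · have : i = n := by omega
      rw [this]
      exact h.1

/-- One step. -/
def stp (t y a : ℕ) : ℕ := (t * t - 1 + 3 * a ^ 2) / (3 * y)

/-- The test of one number. -/
def tst (R B D : ℕ) : Bool :=
  Nat.ble ((D + 1) * (D + 2) * (D + 3) + B) R && Nat.ble (R + B) ((D + 2) * (D + 3) * (D + 4))

/-- The test. -/
def chk (m t : ℕ) : Bool :=
  Nat.ble (2 * t) (3 * m ^ 2) || Nat.ble t (6 * m) ||
    (tst (t ^ 3 * (m * (m + 1) * (m + 2))) (9 * (m * (m - 1)))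
      (t * (m + 1) - stp t (t * (m + 1)) (stp t (t * (m + 1)) (stp t (t * (m + 1))
        (stp t (t * (m + 1)) 0))) - 3)) ||
    (tst (t ^ 3 * (m * (m + 1) * (m + 2))) (9 * (m * (m - 1)))
      (t * (m + 1) - stp t (t * (m + 1)) (stp t (t * (m + 1)) (stp t (t * (m + 1))
        (stp t (t * (m + 1)) 0))) - 4))

set_option maxRecDepth 100000 in
lemma chk_all : allB (fun m => allB (chk (m + 2)) 1001) 24 = true := by
  decide +kernel

lemma gapZ (t m a : ℤ) (hm : 2 ≤ m) (ha : 1 ≤ a) (hat : a < t) (h6 : 6 * m < t)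
    (h2 : 2 * t ≤ 3 * m ^ 2) :
    9 * (m * (m - 1)) ≤ t * (m + 1) * (t ^ 2 - 1 + 3 * a ^ 2 - 3 * a * (t * (m + 1))) -
      (a ^ 3 - a) ∨
    t * (m + 1) * (t ^ 2 - 1 + 3 * a ^ 2 - 3 * a * (t * (m + 1))) -
      (a ^ 3 - a) ≤ -(9 * (m * (m - 1))) := by
  obtain ⟨J, hJ⟩ : ∃ J, J = t - 3 * a * (m + 1) := ⟨_, rfl⟩
  obtain ⟨K, hK⟩ : ∃ K, K = 3 * a ^ 2 - 1 + t * J := ⟨_, rfl⟩
  have hK' : t ^ 2 - 1 + 3 * a ^ 2 - 3 * a * (t * (m + 1)) = K := by
    rw [hK, hJ]; ring
  rw [hK']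
  have htpos : 0 < t := by linarith
  have ha3 : 0 ≤ a ^ 3 - a := by nlinarith [mul_nonneg (show (0 : ℤ) ≤ a by linarith) (show 0 ≤ a ^ 2 - 1 by nlinarith)]
  rcases le_or_gt 0 J with h | h
  · left
    have h3 : 3 * a ^ 2 - 1 ≤ K := by
      rw [hK]
      nlinarith [mul_nonneg htpos.le h]
    have h4 : 0 < t * (m + 1) := by positivity
    have h5 : t * (m + 1) * (3 * a ^ 2 - 1) ≤ t * (m + 1) * K := mul_le_mul_of_nonneg_left h3 h4.le
    have h7 : a ^ 3 - a ≤ a * (3 * a ^ 2 - 1) := by nlinarith [pow_pos (show (0 : ℤ) < a by linarith) 3]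
    have h8 : (2 : ℤ) ≤ 3 * a ^ 2 - 1 := by nlinarith
    have h9 : a * (3 * a ^ 2 - 1) ≤ t * (3 * a ^ 2 - 1) :=
      mul_le_mul_of_nonneg_right hat.le (by linarith)
    have h10 : t * m * 2 ≤ t * m * (3 * a ^ 2 - 1) :=
      mul_le_mul_of_nonneg_left h8 (by positivity)
    have h11 : 6 * m * m ≤ t * m := mul_le_mul_of_nonneg_right h6.le (by linarith)
    nlinarith
  · by_cases hK2 : K ≤ -2
    · right
      have h4 : 0 < t * (m + 1) := by positivity
      have h5 : t * (m + 1) * K ≤ t * (m + 1) * (-2) := mul_le_mul_of_nonneg_left hK2 h4.le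
      have h11 : 6 * m * (m + 1) ≤ t * (m + 1) := mul_le_mul_of_nonneg_right h6.le (by linarith)
      nlinarith
    · exfalso
      push Not at hK2
      have h3 : -1 ≤ K := by linarith
      rw [hK] at h3
      have hJ1 : J ≤ -1 := by linarith
      -- `3 a ^ 2 ≥ t`
      have h4 : t ≤ 3 * a ^ 2 := by nlinarith
      -- `3 a m < t`
      have h5 : 3 * a * m < t := by
        have h6' : t * (3 * a * (m + 1)) ≤ t ^ 2 + 3 * a ^ 2 := by
          rw [hJ] at h3
          nlinarith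
        have h7 : t * (3 * a * (m + 1)) < t * (t + 3 * a) := by
          have : a * a < a * t := mul_lt_mul_of_pos_left hat (by linarith)
          nlinarith
        have h8 := lt_of_mul_lt_mul_left h7 htpos.le
        linarith
      have h7 : (3 * a * m) ^ 2 < t ^ 2 := by
        have : 0 ≤ 3 * a * m := by positivity
        nlinarith
      have h8 : 2 * t * t ≤ 3 * m ^ 2 * (3 * a ^ 2) := by
        have h9 : 0 ≤ 3 * a ^ 2 := by positivity
        calc 2 * t * t ≤ 3 * m ^ 2 * t := mul_le_mul_of_nonneg_right h2 htpos.le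
          _ ≤ 3 * m ^ 2 * (3 * a ^ 2) := mul_le_mul_of_nonneg_left h4 (by positivity)
      nlinarith

end Pool.Agent.K7.H43.PT
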