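import Pool.Agent.K7.H43.PT.Space
import Pool.Agent.K7.H43.PT.Gap
import Pool.Agent.K7.H43.PW.Fin

/-!
`t ^ 3` points of space: the final form.
-/

set_option autoImplicit false

namespace Pool.Agent.K7.H43.PT

open MvPolynomial Finset Pool.Agent.H938R2 Pool.Agent.TH176.FB Pool.Agent.Y55.Col

/-- The cases for space. -/
def C3 (t m d : ℕ) : Prop :=
  t ≤ 1000 ∨ 2 * t ≤ 3 * m ^ 2 ∨
    2 * (d + 3).choose 3 + 3 * m * (m - 1) ≤ 2 * (t ^ 3 * (m + 2).choose 3) ∨
    2 * (t ^ 3 * (m + 2).choose 3) + 3 * m * (m - 1) ≤ 2 * (d + 3).choose 3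

lemma six_choose3 (d : ℕ) : 6 * (d + 3).choose 3 = (d + 1) * (d + 2) * (d + 3) := by
  have h1 := PW.six_choose (d + 1)
  have e1 : d + 1 + 2 = d + 3 := by ring
  rw [e1] at h1
  rw [h1]
  ring

/-- The numbers in the range which is left. -/
lemma band_of {t m c a : ℕ} (ht : t = c + a + 2) (ha : 1 ≤ a) (hm : 2 ≤ m) (h6 : 6 * m < t)
    (h : t ≤ 1000 ∨ 2 * t ≤ 3 * m ^ 2) :
    2 * (t * m + c + 3).choose 3 + 3 * m * (m - 1) ≤ 2 * (t ^ 3 * (m + 2).choose 3) ∨
    2 * (t ^ 3 * (m + 2).choose 3) + 3 * m * (m - 1) ≤ 2 * (t * m + c + 3).choose 3 := by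
  have e1 := six_choose3 (t * m + c)
  have e2 := PW.six_choose m
  obtain ⟨R, hR⟩ : ∃ R, R = t ^ 3 * (m * (m + 1) * (m + 2)) := ⟨_, rfl⟩
  have e3 : 6 * (t ^ 3 * (m + 2).choose 3) = R := by
    have : 6 * (t ^ 3 * (m + 2).choose 3) = t ^ 3 * (6 * (m + 2).choose 3) := by ring
    rw [this, e2, hR]
    ring
  have e4 : 3 * m * (m - 1) = 3 * (m * (m - 1)) := by ring
  rw [e4]
  by_cases h2 : 2 * t ≤ 3 * m ^ 2
  · obtain ⟨m', rfl⟩ : ∃ m', m = m' + 1 := ⟨m - 1, by omega⟩
    rw [Nat.add_sub_cancel]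
    have h3 := gapZ (t : ℤ) ((m' + 1 : ℕ) : ℤ) (a : ℤ) (by exact_mod_cast hm)
      (by exact_mod_cast ha) (by omega) (by exact_mod_cast h6) (by exact_mod_cast h2)
    rw [hR] at e3
    rcases h3 with h3 | h3
    · right
      have h4 : R + 9 * ((m' + 1) * m') ≤ 6 * (t * (m' + 1) + c + 3).choose 3 := by
        rw [e1, hR]
        subst ht
        zify
        push_cast at h3
        linear_combination h3
      rw [hR] at h4
      omega
    · left
      have h4 : 6 * (t * (m' + 1) + c + 3).choose 3 + 9 * ((m' + 1) * m') ≤ R := by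
        rw [e1, hR]
        subst ht
        zify
        push_cast at h3
        linear_combination h3
      rw [hR] at h4
      omega
  · have ht1000 : t ≤ 1000 := by tauto
    have hm26 : m < 26 := by
      by_contra hcon
      apply h2
      nlinarith
    obtain ⟨m', rfl⟩ : ∃ m', m = m' + 2 := ⟨m - 2, by omega⟩
    have h3 := allB_spec (allB_spec chk_all m' (by omega)) t (by omega)
    have key : ∀ D, tst (t ^ 3 * ((m' + 2) * (m' + 2 + 1) * (m' + 2 + 2)))
        (9 * ((m' + 2) * (m' + 2 - 1))) D = true →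
        2 * (t * (m' + 2) + c + 3).choose 3 + 3 * ((m' + 2) * (m' + 2 - 1)) ≤
          2 * (t ^ 3 * (m' + 2 + 2).choose 3) ∨
        2 * (t ^ 3 * (m' + 2 + 2).choose 3) + 3 * ((m' + 2) * (m' + 2 - 1)) ≤
          2 * (t * (m' + 2) + c + 3).choose 3 := by
      intro D hD
      unfold tst at hD
      rw [Bool.and_eq_true, Nat.ble_eq, Nat.ble_eq, ← hR] at hD
      rcases Nat.lt_or_ge D (t * (m' + 2) + c) with h4 | h4
      · right
        have h5 : (D + 2) * (D + 3) * (D + 4) ≤ (t * (m' + 2) + c + 1) *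
            (t * (m' + 2) + c + 2) * (t * (m' + 2) + c + 3) :=
          Nat.mul_le_mul (Nat.mul_le_mul (by omega) (by omega)) (by omega)
        rw [← e1] at h5
        omega
      · left
        have h5 : (t * (m' + 2) + c + 1) * (t * (m' + 2) + c + 2) * (t * (m' + 2) + c + 3) ≤
            (D + 1) * (D + 2) * (D + 3) :=
          Nat.mul_le_mul (Nat.mul_le_mul (by omega) (by omega)) (by omega)
        rw [← e1] at h5
        omega
    unfold chk at h3
    rw [Bool.or_eq_true, Bool.or_eq_true, Bool.or_eq_true] at h3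
    rcases h3 with ((h3 | h3) | h3) | h3
    · rw [Nat.ble_eq] at h3
      exact absurd h3 h2
    · rw [Nat.ble_eq] at h3
      omega
    · exact key _ h3
    · exact key _ h3

theorem space (t m d : ℕ) (ht : 2 ≤ t) (hm : 1 ≤ m) (h : C3 t m d) :
    ForGeneral 4 (t ^ 3) (fun p =>
      Module.finrank ℂ (forms 4 d (fun _ => m) p) =
        (d + 3).choose 3 - t ^ 3 * (m + 2).choose 3) := by
  by_cases hm1 : m = 1
  · subst hm1
    exact PW.uniform' 2 t 1 d ht le_rfl (Or.inr (Or.inl rfl))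
  by_cases h1 : d < t * m
  · exact PW.uniform' 2 t m d ht hm (Or.inl (Or.inr (Or.inl h1)))
  by_cases h2 : 2 * t * m + 2 * t ≤ 2 * d + 4
  · exact PW.uniform' 2 t m d ht hm (Or.inl (Or.inr (Or.inr (Or.inl h2))))
  by_cases h3 : (t - 2) * (t - 3) ≤ 6 * m * (t + 1)
  · exact PW.uniform' 2 t m d ht hm (Or.inr (Or.inr (Or.inr (Or.inl ⟨rfl, Or.inr h3⟩))))
  push Not at h1 h2
  have h6 : 6 * m < t := by
    by_contra hcon
    push Not at hcon
    apply h3
    calc (t - 2) * (t - 3) ≤ t * t := Nat.mul_le_mul (Nat.sub_le _ _) (Nat.sub_le _ _)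
      _ ≤ 6 * m * (t + 1) := Nat.mul_le_mul hcon (by omega)
  obtain ⟨c, hc⟩ := Nat.exists_eq_add_of_le h1
  obtain ⟨a, ha⟩ : ∃ a, t = c + (a + 1) + 2 := by
    refine ⟨t - (c + 3), ?_⟩
    have e1 : 2 * t * m = 2 * (t * m) := by ring
    omega
  have hb : 2 * (d + 3).choose 3 + 3 * m * (m - 1) ≤ 2 * (t ^ 3 * (m + 2).choose 3) ∨
      2 * (t ^ 3 * (m + 2).choose 3) + 3 * m * (m - 1) ≤ 2 * (d + 3).choose 3 := by
    rcases h with h | h | h
    · rw [hc]
      exact band_of ha (by omega) (by omega) h6 (Or.inl h)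
    · rw [hc]
      exact band_of ha (by omega) (by omega) h6 (Or.inr h)
    · exact h
  rw [hc] at hb ⊢
  rcases hb with hb | hb
  · exact PW.max_of_zero (n := 2) (band_zero ha (by omega) (by omega) hb)
  · refine (band_ind ha (by omega) (by omega) hb).mono fun p hp => ?_
    omega

end Pool.Agent.K7.H43.PT
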