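import Pool.Agent.K7.H43.PT.Rk

/-!
The model with points at different scales.
-/

set_option autoImplicit false

namespace Pool.Agent.K7.H43.PT

open MvPolynomial Finset Pool.Agent.TH176.FB Pool.Agent.TH176.FB.J13 Pool.Agent.TH176.FB.J17

/-- The number of conditions on the coefficient of `s ^ γ` given by a point in the direction `l`
with weight `w`. -/
noncomputable def cn {n : ℕ} (m E : ℕ) (ν : (Fin n →₀ ℕ) → ℕ) (l : Fin n) (w : ℕ)
    (γ : Fin n →₀ ℕ) : ℕ :=
  rk (fun x => ν (γ.update l x) + w * x) (m + E - γ.degree + γ l) (γ l) - E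

lemma prod_off {n : ℕ} (β γ : Fin n →₀ ℕ) (l : Fin n) (z : ℝ) (q : Fin n → ℝ) (hq : q l = z)
    (hq0 : ∀ l' ≠ l, q l' = 0) :
    ∏ l', (((β l').choose (γ l') : ℝ) * q l' ^ (β l' - γ l')) =
      if γ.update l (β l) = β then (((β l).choose (γ l) : ℕ) : ℝ) * z ^ (β l - γ l) else 0 := by
  classical
  split_ifs with h
  · rw [← Finset.mul_prod_erase _ _ (Finset.mem_univ l), Finset.prod_eq_one (s := _), hq, mul_one]
    intro l' hl'
    have h2 : l' ≠ l := (Finset.mem_erase.1 hl').1
    have h3 : β l' = γ l' := by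
      rw [← h, Finsupp.update_apply, if_neg h2]
    rw [h3, Nat.choose_self, Nat.sub_self, pow_zero, Nat.cast_one, mul_one]
  · obtain ⟨l', hl', h3⟩ : ∃ l', l' ≠ l ∧ β l' ≠ γ l' := by
      by_contra h3
      push Not at h3
      apply h
      ext l'
      rw [Finsupp.update_apply]
      split_ifs with h4
      · rw [h4]
      · exact (h3 l' h4).symm
    apply Finset.prod_eq_zero (Finset.mem_univ l')
    rcases lt_or_gt_of_ne h3 with h4 | h4
    · rw [Nat.choose_eq_zero_of_lt h4, Nat.cast_zero, zero_mul]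
    · rw [hq0 l' hl', zero_pow (by omega), mul_zero]

lemma prod_on {n : ℕ} (β γ : Fin n →₀ ℕ) (q : Fin n → ℝ) (hq0 : ∀ l', q l' = 0) :
    ∏ l', (((β l').choose (γ l') : ℝ) * q l' ^ (β l' - γ l')) = if β = γ then 1 else 0 := by
  classical
  split_ifs with h
  · subst h
    apply Finset.prod_eq_one
    intro l' _
    rw [Nat.choose_self, Nat.sub_self, pow_zero, Nat.cast_one, mul_one]
  · obtain ⟨l', h3⟩ : ∃ l', β l' ≠ γ l' := by
      by_contra h3
      push Not at h3
      exact h (Finsupp.ext h3)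
    apply Finset.prod_eq_zero (Finset.mem_univ l')
    rcases lt_or_gt_of_ne h3 with h4 | h4
    · rw [Nat.choose_eq_zero_of_lt h4, Nat.cast_zero, zero_mul]
    · rw [hq0 l', zero_pow (by omega), mul_zero]

/-- Sums over slices. -/
lemma slice {ι : Type} [Fintype ι] {n : ℕ} (b : ι → Fin n →₀ ℕ) (γ : Fin n →₀ ℕ) (l : Fin n)
    (J : ℕ) (hJ : ∀ α, γ.update l (b α l) = b α → b α l ≤ J) (f : ι → ℝ) (w : ℕ → ℝ) :
    ∑ x ∈ range (J + 1), (∑ α : ι, if b α = γ.update l x then f α else 0) * w x =
      ∑ α : ι, if γ.update l (b α l) = b α then f α * w (b α l) else 0 := by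
  classical
  simp only [Finset.sum_mul]
  rw [Finset.sum_comm]
  refine Finset.sum_congr rfl fun α _ => ?_
  split_ifs with h
  · rw [Finset.sum_eq_single (b α l)]
    · rw [if_pos h.symm]
    · intro x _ hx
      rw [if_neg, zero_mul]
      intro h1
      apply hx
      rw [h1, Finsupp.update_apply, if_pos rfl]
    · intro h1
      exact absurd (Finset.mem_range.2 (by have := hJ α h; omega)) h1
  · apply Finset.sum_eq_zero
    intro x _
    rw [if_neg, zero_mul]
    intro h1
    apply h
    rw [h1]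
    ext l'
    rw [Finsupp.update_apply, Finsupp.update_apply, Finsupp.update_apply]
    simp

theorem modelT {n t m c r N E : ℕ} (s : Fin N → ℕ) (dir : Fin N → Fin n) (wt : Fin N → ℕ)
    (ν : (Fin n →₀ ℕ) → ℕ) (ht : 1 ≤ t) (hc : c < t * (E + 1)) (hr : ∑ j, s j ≤ r)
    (hν : ∀ (j : Fin N) (γ : Fin n →₀ ℕ), γ.degree ≤ m + E →
      ∀ x ≤ m + E - γ.degree + γ (dir j), ∀ y ≤ m + E - γ.degree + γ (dir j),
        ν (γ.update (dir j) x) + wt j * x = ν (γ.update (dir j) y) + wt j * y → x = y)
    (A : Finset (Fin (n + 1) →₀ ℕ))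
    (hA : ∀ (γ : Fin n →₀ ℕ) (B : Finset (Fin (n + 1) →₀ ℕ)), γ.degree ≤ m + E →
      (∀ α ∈ B, be t α = γ ∧ α.degree ≤ t * m + c ∧ α ∉ A) →
      B.card ≤ ∑ j, s j * cn m E ν (dir j) (wt j) γ + (r - ∑ j, s j) * (m - γ.degree)) :
    ∃ P : Fin r → Fin (n + 1) → ℝ,
      ∀ G : MvPolynomial (Fin (n + 1)) ℝ, G.totalDegree ≤ t * m + c → (∀ α ∈ A, coeff α G = 0) →
        (∀ i, ∀ a : Fin (n + 1) →₀ ℕ, a.degree < m → coeff a (shift (P i) (Th t G)) = 0) →
        G = 0 := by
  classical
  obtain ⟨g, hg⟩ := PW.exists_groups s r hr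
  have hinj : Function.Injective fun i : Fin r => ((i : ℕ) : ℝ) + 1 := by
    intro i i' h
    have h1 : ((i : ℕ) : ℝ) = ((i' : ℕ) : ℝ) := by simpa using h
    exact Fin.ext (by exact_mod_cast h1)
  obtain ⟨k, hk⟩ : ∃ k, k = t * m + c := ⟨_, rfl⟩
  let ι : Type := {α : Fin (n + 1) →₀ ℕ // α.degree ≤ k}
  let Γ : Type := {γ : Fin n →₀ ℕ // γ.degree ≤ m + E}
  have f1 : Finite ι := (Finsupp.finite_of_degree_le k).to_subtype
  have f2 : Finite Γ := (Finsupp.finite_of_degree_le (m + E)).to_subtype
  let g1 : Fintype ι := Fintype.ofFinite ι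
  let g2 : Fintype Γ := Fintype.ofFinite Γ
  have hbe : ∀ α : ι, (be t α.1).degree ≤ m + E := by
    intro α
    have h1 : t * (be t α.1).degree ≤ t * m + c := (t_be_le α.1).trans (hk ▸ α.2)
    by_contra h2
    have h3 : t * (m + (E + 1)) ≤ t * (be t α.1).degree := Nat.mul_le_mul_left _ (by omega)
    rw [Nat.mul_add] at h3
    omega
  -- the factor of the monomials
  let φ : ι → ℕ → Fin r → ℝ := fun α a i =>
    ((ex t α.1 0).choose a : ℝ) * ((((i : ℕ) : ℝ) + 1) ^ (ex t α.1 0 - a))
  let M0 : Matrix (Fin r × Γ × Fin (m + 1)) ι (Polynomial ℝ) := fun q α =>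
    if h : g q.1 < N then
      (if (q.2.2 : ℕ) < cn m E ν (dir ⟨g q.1, h⟩) (wt ⟨g q.1, h⟩) q.2.1.1 then
        (if q.2.1.1.update (dir ⟨g q.1, h⟩) (be t α.1 (dir ⟨g q.1, h⟩)) = be t α.1 then
          Polynomial.C (RR (fun x => ν (q.2.1.1.update (dir ⟨g q.1, h⟩) x) + wt ⟨g q.1, h⟩ * x)
            (m + E - q.2.1.1.degree + q.2.1.1 (dir ⟨g q.1, h⟩)) (q.2.2 + E)
            (q.2.1.1 (dir ⟨g q.1, h⟩)) (be t α.1 (dir ⟨g q.1, h⟩)) * φ α q.2.2 q.1) *
          Polynomial.X ^ ((ν (q.2.1.1.update (dir ⟨g q.1, h⟩) (q.2.1.1 (dir ⟨g q.1, h⟩))) +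
            wt ⟨g q.1, h⟩ * q.2.1.1 (dir ⟨g q.1, h⟩)) -
            (ν (q.2.1.1.update (dir ⟨g q.1, h⟩) (be t α.1 (dir ⟨g q.1, h⟩))) +
              wt ⟨g q.1, h⟩ * be t α.1 (dir ⟨g q.1, h⟩)))
        else 0) else 0)
    else (if (q.2.2 : ℕ) < m - q.2.1.1.degree ∧ be t α.1 = q.2.1.1 then
        Polynomial.C (φ α q.2.2 q.1) else 0)
  let M : Matrix ((Fin r × Γ × Fin (m + 1)) ⊕ A) ι (Polynomial ℝ) := fun q α =>
    Sum.elim (fun q => M0 q α) (fun β => if β.1 = α.1 then (1 : Polynomial ℝ) else 0) q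
  have hMA : ∀ (ε : ℝ) (c' : ι → ℝ), (M.map (Polynomial.eval ε)).mulVec c' = 0 →
      ∀ α : ι, α.1 ∈ A → c' α = 0 := by
    intro ε c' hc' α hα
    have h1 := congrFun hc' (Sum.inr ⟨α.1, hα⟩)
    unfold Matrix.mulVec dotProduct at h1
    rw [Finset.sum_eq_single α] at h1
    · change Polynomial.eval ε (if α.1 = α.1 then (1 : Polynomial ℝ) else 0) * _ = _ at h1
      rwa [if_pos rfl, Polynomial.eval_one, one_mul] at h1
    · intro β _ hβ
      change Polynomial.eval ε (if α.1 = β.1 then (1 : Polynomial ℝ) else 0) * _ = _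
      rw [if_neg, Polynomial.eval_zero, zero_mul]
      exact fun h5 => hβ (Subtype.ext h5.symm)
    · intro h5
      exact absurd (Finset.mem_univ _) h5
  have hcn : ∀ (j : Fin N) (γ : Fin n →₀ ℕ), γ.degree ≤ m + E →
      cn m E ν (dir j) (wt j) γ ≤ m := by
    intro j γ hγ
    unfold cn
    have h1 := rk_le (σ := fun x => ν (γ.update (dir j) x) + wt j * x)
      (Nat.le_add_left (γ (dir j)) (m + E - γ.degree))
    have := PW.le_degree γ (dir j)
    omega
  -- the limit
  have h0 : ∀ c' : ι → ℝ, (M.map (Polynomial.eval 0)).mulVec c' = 0 → c' = 0 := by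
    intro c' hc'
    have hT : ∀ (i : Fin r) (γ : Γ) (a : ℕ),
        a < (if h : g i < N then cn m E ν (dir ⟨g i, h⟩) (wt ⟨g i, h⟩) γ.1 else m - γ.1.degree) →
        ∑ α : ι, (if be t α.1 = γ.1 then c' α * φ α a i else 0) = 0 := by
      intro i γ a ha
      have ham : a < m + 1 := by
        split_ifs at ha with h
        · have := hcn ⟨g i, h⟩ γ.1 γ.2
          omega
        · omega
      have h1 := congrFun hc' (Sum.inl (i, γ, ⟨a, ham⟩))
      unfold Matrix.mulVec dotProduct at h1
      change ∑ α : ι, Polynomial.eval 0 (M0 (i, γ, ⟨a, ham⟩) α) * c' α = 0 at h1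
      by_cases h : g i < N
      · rw [dif_pos h] at ha
        have h2 : ∀ α : ι, Polynomial.eval 0 (M0 (i, γ, ⟨a, ham⟩) α) * c' α =
            RR (fun x => ν (γ.1.update (dir ⟨g i, h⟩) x) + wt ⟨g i, h⟩ * x)
            (m + E - γ.1.degree + γ.1 (dir ⟨g i, h⟩)) (a + E) (γ.1 (dir ⟨g i, h⟩))
            (γ.1 (dir ⟨g i, h⟩)) * (if be t α.1 = γ.1 then c' α * φ α a i else 0) := by
          intro α
          simp only [M0, dif_pos h, if_pos ha]
          by_cases h3 : be t α.1 = γ.1
          · rw [if_pos h3, h3, Finsupp.update_self, if_pos rfl, Nat.sub_self, pow_zero, mul_one,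
              Polynomial.eval_C]
            ring
          · rw [if_neg h3, mul_zero]
            split_ifs with h4
            · have h5 : be t α.1 (dir ⟨g i, h⟩) ≠ γ.1 (dir ⟨g i, h⟩) := by
                intro h6
                apply h3
                rw [← h4, h6, Finsupp.update_self]
              have h7 : be t α.1 (dir ⟨g i, h⟩) ≤ m + E - γ.1.degree + γ.1 (dir ⟨g i, h⟩) := by
                have h8 := PW.degree_update γ.1 (dir ⟨g i, h⟩) (be t α.1 (dir ⟨g i, h⟩))
                rw [h4] at h8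
                have h9 := hbe α
                have := γ.2
                omega
              rcases Nat.lt_or_ge (ν (γ.1.update (dir ⟨g i, h⟩) (be t α.1 (dir ⟨g i, h⟩))) +
                  wt ⟨g i, h⟩ * be t α.1 (dir ⟨g i, h⟩))
                (ν (γ.1.update (dir ⟨g i, h⟩) (γ.1 (dir ⟨g i, h⟩))) +
                  wt ⟨g i, h⟩ * γ.1 (dir ⟨g i, h⟩)) with h8 | h8
              · rw [Polynomial.eval_mul, Polynomial.eval_pow, Polynomial.eval_X,
                  zero_pow (by omega), mul_zero, zero_mul]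
              · rw [RR_zero (by unfold cn at ha; omega) h7 h5 h8, zero_mul, Polynomial.C_0, zero_mul,
                  Polynomial.eval_zero, zero_mul]
            · rw [Polynomial.eval_zero, zero_mul]
        rw [Finset.sum_congr rfl fun α _ => h2 α, ← Finset.mul_sum] at h1
        exact (mul_eq_zero.1 h1).resolve_left (RR_self _ _ _ _)
      · rw [dif_neg h] at ha
        refine Eq.trans ?_ h1
        refine Finset.sum_congr rfl fun α _ => ?_
        simp only [M0, dif_neg h]
        by_cases h3 : be t α.1 = γ.1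
        · rw [if_pos h3, if_pos ⟨ha, h3⟩, Polynomial.eval_C]
          ring
        · rw [if_neg h3, if_neg fun h4 => h3 h4.2, Polynomial.eval_zero, zero_mul]
    funext α0
    rw [Pi.zero_apply]
    by_contra hne
    obtain ⟨γ, hγ⟩ : ∃ γ : Γ, γ.1 = be t α0.1 := ⟨⟨_, hbe α0⟩, rfl⟩
    let A1 : Finset ι := Finset.univ.filter fun α => be t α.1 = γ.1 ∧ c' α ≠ 0
    have h3 := few' A1 (fun α => ex t α.1 0)
      (fun α hα β hβ he => by
        have hα' := (Finset.mem_filter.1 hα).2.1
        have hβ' := (Finset.mem_filter.1 hβ).2.1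
        apply Subtype.ext
        apply ex_inj ht
        ext l
        refine Fin.cases he (fun i => ?_) l
        have h1 := DFunLike.congr_fun (hα'.trans hβ'.symm) i
        rw [be_apply, be_apply] at h1
        rw [ex_succ, ex_succ, h1])
      c' (fun i : Fin r => ((i : ℕ) : ℝ) + 1) hinj
      (fun i => by positivity)
      (fun i => if h : g i < N then cn m E ν (dir ⟨g i, h⟩) (wt ⟨g i, h⟩) γ.1 else m - γ.1.degree)
      (fun i a ha => ?_) ?_ α0 (Finset.mem_filter.2 ⟨Finset.mem_univ _, hγ.symm, hne⟩)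
    · exact hne h3
    · refine Eq.trans ?_ (hT i γ a ha)
      rw [Finset.sum_filter]
      refine Finset.sum_congr rfl fun α _ => ?_
      by_cases h4 : be t α.1 = γ.1
      · by_cases h5 : c' α = 0
        · rw [if_neg fun h6 => h6.2 h5, if_pos h4, h5, zero_mul]
        · rw [if_pos ⟨h4, h5⟩, if_pos h4]
      · rw [if_neg fun h6 => h4 h6.1, if_neg h4]
    · have h4 := hA γ.1 (A1.map (Function.Embedding.subtype _)) γ.2 (by
        intro α hα
        rw [Finset.mem_map] at hα
        obtain ⟨β, hβ, rfl⟩ := hα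
        rw [Finset.mem_filter] at hβ
        refine ⟨hβ.2.1, hk ▸ β.2, fun h5 => hβ.2.2 (hMA 0 c' hc' β h5)⟩)
      rw [Finset.card_map] at h4
      refine h4.trans (le_of_eq ?_)
      have h5 := hg fun j => if h : j < N then cn m E ν (dir ⟨j, h⟩) (wt ⟨j, h⟩) γ.1
        else m - γ.1.degree
      rw [h5, dif_neg (lt_irrefl N)]
      congr 1
      refine Finset.sum_congr rfl fun j _ => ?_
      rw [dif_pos j.2]
  obtain ⟨ε, hε, hM⟩ := inj_near M h0
  refine ⟨fun i => Fin.cons (((i : ℕ) : ℝ) + 1) (fun l => if h : g i < N then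
    (if l = dir ⟨g i, h⟩ then (ε⁻¹) ^ wt ⟨g i, h⟩ else 0) else 0), fun G hG hGA h => ?_⟩
  rw [← hk] at hG
  -- the conditions
  have hcond : ∀ (i : Fin r) (a0 : ℕ) (γ : Fin n →₀ ℕ), a0 + γ.degree < m →
      ∑ α : ι, coeff α.1 G * (φ α a0 i * ∏ l, (((be t α.1 l).choose (γ l) : ℝ) *
        (if h : g i < N then (if l = dir ⟨g i, h⟩ then (ε⁻¹) ^ wt ⟨g i, h⟩ else 0) else 0) ^
          (be t α.1 l - γ l))) = 0 := by
    intro i a0 γ ha
    have h1 := h i (Finsupp.cons a0 γ) (by rw [degree_cons]; exact ha)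
    rw [shift_Th] at h1
    refine Eq.trans ?_ h1
    have h2 : ∀ F : (Fin (n + 1) →₀ ℕ) → ℝ, (∀ α, coeff α G = 0 → F α = 0) →
        ∑ α : ι, F α.1 = ∑ α ∈ G.support, F α := by
      intro F hF
      have h3 : ∑ α : ι, F α.1 = ∑ α ∈ (Finset.univ : Finset ι).map
          (Function.Embedding.subtype _), F α := by
        rw [Finset.sum_map]
        rfl
      rw [h3]
      symm
      apply Finset.sum_subset
      · intro α hα
        rw [Finset.mem_map]
        exact ⟨⟨α, (le_totalDegree' hα).trans hG⟩, Finset.mem_univ _, rfl⟩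
      · intro α _ hα
        exact hF α (by rwa [mem_support_iff, not_not] at hα)
    rw [← h2 (fun α => coeff α G * ∏ l, (((ex t α l).choose ((Finsupp.cons a0 γ : Fin (n + 1) →₀ ℕ)
      l) : ℝ) * (Fin.cons (((i : ℕ) : ℝ) + 1) (fun l => if h : g i < N then
      (if l = dir ⟨g i, h⟩ then (ε⁻¹) ^ wt ⟨g i, h⟩ else 0) else 0) : Fin (n + 1) → ℝ) l ^
        (ex t α l - (Finsupp.cons a0 γ : Fin (n + 1) →₀ ℕ) l)))
      (fun α hα => by rw [hα, zero_mul])]
    refine Finset.sum_congr rfl fun α _ => ?_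
    rw [Fin.prod_univ_succ]
    simp only [Finsupp.cons_zero, Finsupp.cons_succ, Fin.cons_zero, Fin.cons_succ,
      ex_succ, be_apply, φ]
  have hz := hM (fun α => ε ^ ν (be t α.1) * coeff α.1 G) (by
    funext q
    rcases q with ⟨i, γ, a⟩ | β
    · unfold Matrix.mulVec dotProduct
      change ∑ α : ι, Polynomial.eval ε (M0 (i, γ, a) α) * (ε ^ ν (be t α.1) * coeff α.1 G) = 0
      by_cases hi : g i < N
      · by_cases ha : (a : ℕ) < cn m E ν (dir ⟨g i, hi⟩) (wt ⟨g i, hi⟩) γ.1
        swap
        · apply Finset.sum_eq_zero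
          intro α _
          simp only [M0, dif_pos hi, if_neg ha]
          rw [Polynomial.eval_zero, zero_mul]
        obtain ⟨l, hl⟩ : ∃ l, l = dir ⟨g i, hi⟩ := ⟨_, rfl⟩
        obtain ⟨w, hw⟩ : ∃ w, w = wt ⟨g i, hi⟩ := ⟨_, rfl⟩
        obtain ⟨J, hJ⟩ : ∃ J, J = m + E - γ.1.degree + γ.1 l := ⟨_, rfl⟩
        have hdeg := γ.2
        have hled := PW.le_degree γ.1 l
        have hJ' : ∀ α : ι, γ.1.update l (be t α.1 l) = be t α.1 → be t α.1 l ≤ J := by
          intro α h4
          have h8 := PW.degree_update γ.1 l (be t α.1 l)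
          rw [h4] at h8
          have h9 := hbe α
          omega
        have hrow := row (ν := fun x => ν (γ.1.update l x)) (w := w) (J := J) (a := a + E)
          (x0 := γ.1 l) hε (fun x hx y hy hxy => hν ⟨g i, hi⟩ γ.1 γ.2 x
            (by rw [← hl, ← hJ]; exact hx) y (by rw [← hl, ← hJ]; exact hy)
            (by rw [← hl, ← hw]; exact hxy)) (by omega)
          (by
            rw [hJ, hl, hw]
            unfold cn at ha
            omega)
          (fun x => ∑ α : ι, if be t α.1 = γ.1.update l x then coeff α.1 G * φ α a i else 0)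
          (by
            intro b hb
            rw [slice (fun α : ι => be t α.1) γ.1 l J hJ']
            have h1 := hcond i a (γ.1.update l b) (by
              have := PW.degree_update γ.1 l b
              omega)
            refine Eq.trans ?_ h1
            refine Finset.sum_congr rfl fun α _ => ?_
            rw [prod_off (be t α.1) (γ.1.update l b) l ((ε⁻¹) ^ w) _ (by
              simp only [dif_pos hi]
              rw [if_pos hl, hw]) (fun l' hl' => by
              simp only [dif_pos hi]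
              rw [if_neg (by rw [← hl]; exact hl')])]
            have e1 : (γ.1.update l b).update l (be t α.1 l) = γ.1.update l (be t α.1 l) := by
              ext l'
              rw [Finsupp.update_apply, Finsupp.update_apply, Finsupp.update_apply]
              split_ifs <;> rfl
            have e2 : (γ.1.update l b) l = b := by
              rw [Finsupp.update_apply, if_pos rfl]
            rw [e1, e2]
            split_ifs with h5
            · ring
            · ring)
        refine Eq.trans ?_ hrow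
        have h6 : ∀ x ∈ range (J + 1), RR (fun x => ν (γ.1.update l x) + w * x) J (a + E) (γ.1 l) x *
            ε ^ ((ν (γ.1.update l (γ.1 l)) + w * γ.1 l) - (ν (γ.1.update l x) + w * x)) *
            (ε ^ ν (γ.1.update l x) *
              ∑ α : ι, if be t α.1 = γ.1.update l x then coeff α.1 G * φ α a i else 0) =
            (∑ α : ι, if be t α.1 = γ.1.update l x then coeff α.1 G * φ α a i else 0) *
            (RR (fun x => ν (γ.1.update l x) + w * x) J (a + E) (γ.1 l) x *
            ε ^ ((ν (γ.1.update l (γ.1 l)) + w * γ.1 l) - (ν (γ.1.update l x) + w * x)) *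
            ε ^ ν (γ.1.update l x)) := by
          intro x _
          ring
        rw [Finset.sum_congr rfl h6, slice (fun α : ι => be t α.1) γ.1 l J hJ']
        refine Finset.sum_congr rfl fun α _ => ?_
        have ha' : (a : ℕ) < cn m E ν l w γ.1 := by rw [hl, hw]; exact ha
        simp only [M0, dif_pos hi, ← hl, ← hw, ← hJ, if_pos ha']
        split_ifs with h7
        · rw [Polynomial.eval_mul, Polynomial.eval_C, Polynomial.eval_pow, Polynomial.eval_X, h7]
          ring
        · rw [Polynomial.eval_zero, zero_mul]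
      · by_cases ha : (a : ℕ) < m - γ.1.degree
        swap
        · apply Finset.sum_eq_zero
          intro α _
          simp only [M0, dif_neg hi]
          rw [if_neg fun h4 => ha h4.1, Polynomial.eval_zero, zero_mul]
        have h1 := hcond i a γ.1 (by omega)
        rw [← mul_zero (ε ^ ν γ.1), ← h1, Finset.mul_sum]
        refine Finset.sum_congr rfl fun α _ => ?_
        rw [prod_on (be t α.1) γ.1 _ (fun l' => by rw [dif_neg hi])]
        simp only [M0, dif_neg hi]
        by_cases h3 : be t α.1 = γ.1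
        · rw [if_pos ⟨ha, h3⟩, if_pos h3, Polynomial.eval_C, h3]
          ring
        · rw [if_neg fun h4 => h3 h4.2, if_neg h3, Polynomial.eval_zero]
          ring
    · unfold Matrix.mulVec dotProduct
      apply Finset.sum_eq_zero
      intro α _
      change Polynomial.eval ε (if β.1 = α.1 then (1 : Polynomial ℝ) else 0) *
        (ε ^ ν (be t α.1) * coeff α.1 G) = 0
      split_ifs with h5
      · have h6 := hGA β.1 β.2
        rw [h5] at h6
        rw [h6, mul_zero, mul_zero]
      · rw [Polynomial.eval_zero, zero_mul])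
  ext α
  rw [coeff_zero]
  by_cases hα : α.degree ≤ k
  · have h1 := congrFun hz ⟨α, hα⟩
    simp only [Pi.zero_apply] at h1
    exact (mul_eq_zero.1 h1).resolve_left (pow_ne_zero _ hε)
  · apply coeff_eq_zero_of_totalDegree_lt
    rw [not_le] at hα
    refine lt_of_le_of_lt hG ?_
    rw [Finsupp.degree_apply] at hα
    exact hα

end Pool.Agent.K7.H43.PT
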