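import Pool.Agent.K7.H43.PW.Mod
import Pool.Agent.TH176.FB.J15

/-!
The model with points at different scales: the combinatorics of one row.
-/

set_option autoImplicit false

namespace Pool.Agent.K7.H43.PT

open MvPolynomial Finset Pool.Agent.TH176.FB Pool.Agent.TH176.FB.J13 Pool.Agent.TH176.FB.J17

lemma newton (K N : ℕ) (F : ℕ → ℝ)
    (h : ∀ b < N, ∑ x ∈ range K, F x * ((x.choose b : ℕ) : ℝ) = 0) :
    ∀ (S : Finset ℕ) (b : ℕ), S.card + b < N →
      ∑ x ∈ range K, F x * (((x.choose b : ℕ) : ℝ) * ∏ y ∈ S, ((x : ℝ) - y)) = 0 := by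
  classical
  intro S
  induction S using Finset.induction_on with
  | empty =>
    intro b hb
    rw [Finset.card_empty, zero_add] at hb
    simpa using h b hb
  | insert y S hy ih =>
    intro b hb
    rw [Finset.card_insert_of_notMem hy] at hb
    have h1 := ih (b + 1) (by omega)
    have h2 := ih b (by omega)
    have key : ∀ x ∈ range K, F x * (((x.choose b : ℕ) : ℝ) * ∏ y ∈ insert y S, ((x : ℝ) - y)) =
        (b + 1 : ℝ) * (F x * (((x.choose (b + 1) : ℕ) : ℝ) * ∏ y ∈ S, ((x : ℝ) - y))) +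
        ((b : ℝ) - y) * (F x * (((x.choose b : ℕ) : ℝ) * ∏ y ∈ S, ((x : ℝ) - y))) := by
      intro x _
      rw [Finset.prod_insert hy]
      have h3 : ((x.choose (b + 1) : ℕ) : ℝ) * (b + 1) = ((x.choose b : ℕ) : ℝ) * ((x : ℝ) - b) := by
        rcases Nat.lt_or_ge x b with hx | hx
        · rw [Nat.choose_eq_zero_of_lt hx, Nat.choose_eq_zero_of_lt (by omega)]
          simp
        · have h4 := Nat.choose_succ_right_eq x b
          rw [← Nat.cast_sub hx]
          exact_mod_cast h4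
      linear_combination (-(F x * ∏ y ∈ S, ((x : ℝ) - y))) * h3
    rw [Finset.sum_congr rfl key, Finset.sum_add_distrib, ← Finset.mul_sum, ← Finset.mul_sum, h1, h2]
    ring

/-- The number of the smaller values. -/
def rk (σ : ℕ → ℕ) (J x : ℕ) : ℕ := ((range (J + 1)).filter fun y => σ y < σ x).card

/-- The elements of high rank. -/
def BB (σ : ℕ → ℕ) (J a : ℕ) : Finset ℕ := (range (J + 1)).filter fun x => a < rk σ J x

lemma rk_lt {σ : ℕ → ℕ} {J x y : ℕ} (hx : x ≤ J) (h : σ x < σ y) : rk σ J x < rk σ J y := by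
  unfold rk
  apply Finset.card_lt_card
  rw [Finset.ssubset_iff_of_subset]
  · exact ⟨x, Finset.mem_filter.2 ⟨Finset.mem_range.2 (by omega), h⟩, fun h1 =>
      lt_irrefl _ (Finset.mem_filter.1 h1).2⟩
  · intro z hz
    rw [Finset.mem_filter] at hz ⊢
    exact ⟨hz.1, hz.2.trans h⟩

lemma rk_le {σ : ℕ → ℕ} {J x : ℕ} (hx : x ≤ J) : rk σ J x ≤ J := by
  unfold rk
  have h1 : (range (J + 1)).filter (fun y => σ y < σ x) ⊆ (range (J + 1)).erase x := by
    intro z hz
    rw [Finset.mem_filter] at hz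
    rw [Finset.mem_erase]
    refine ⟨?_, hz.1⟩
    rintro rfl
    exact lt_irrefl _ hz.2
  refine (Finset.card_le_card h1).trans ?_
  rw [Finset.card_erase_of_mem (Finset.mem_range.2 (by omega)), Finset.card_range]
  omega

lemma card_BB {σ : ℕ → ℕ} {J : ℕ} (hσ : ∀ x ≤ J, ∀ y ≤ J, σ x = σ y → x = y) (a : ℕ) :
    (BB σ J a).card ≤ J - a := by
  have h1 : (BB σ J a).card ≤ (Finset.Ioc a J).card := by
    refine Finset.card_le_card_of_injOn (rk σ J) (fun x hx => ?_) (fun x hx y hy h => ?_)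
    · rw [Finset.mem_coe, BB, Finset.mem_filter, Finset.mem_range] at hx
      rw [Finset.mem_coe, Finset.mem_Ioc]
      exact ⟨hx.2, rk_le (by omega)⟩
    · rw [Finset.mem_coe, BB, Finset.mem_filter, Finset.mem_range] at hx hy
      apply hσ x (by omega) y (by omega)
      rcases lt_trichotomy (σ x) (σ y) with h2 | h2 | h2
      · have := rk_lt (J := J) (by omega) h2
        omega
      · exact h2
      · have := rk_lt (J := J) (by omega) h2
        omega
  rwa [Nat.card_Ioc] at h1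

/-- The factor of the row. -/
noncomputable def RR (σ : ℕ → ℕ) (J a x0 x : ℕ) : ℝ :=
  ∏ y ∈ (BB σ J a).erase x0, ((x : ℝ) - y)

lemma RR_self (σ : ℕ → ℕ) (J a x0 : ℕ) : RR σ J a x0 x0 ≠ 0 := by
  unfold RR
  rw [Finset.prod_ne_zero_iff]
  intro y hy h
  have h1 : y ≠ x0 := (Finset.mem_erase.1 hy).1
  apply h1
  have h2 : (x0 : ℝ) = y := by linarith
  exact_mod_cast h2.symm

lemma RR_zero {σ : ℕ → ℕ} {J a x0 x : ℕ} (h0 : a < rk σ J x0) (hx : x ≤ J) (hne : x ≠ x0)
    (h : σ x0 ≤ σ x) : RR σ J a x0 x = 0 := by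
  unfold RR
  apply Finset.prod_eq_zero (i := x)
  · rw [Finset.mem_erase, BB, Finset.mem_filter, Finset.mem_range]
    refine ⟨hne, by omega, lt_of_lt_of_le h0 ?_⟩
    unfold rk
    apply Finset.card_le_card
    intro z hz
    rw [Finset.mem_filter] at hz ⊢
    exact ⟨hz.1, lt_of_lt_of_le hz.2 h⟩
  · simp

/-- The identity for one row. -/
lemma row {ν : ℕ → ℕ} {w J a x0 : ℕ} {ε : ℝ} (hε : ε ≠ 0)
    (hσ : ∀ x ≤ J, ∀ y ≤ J, ν x + w * x = ν y + w * y → x = y)
    (hx0 : x0 ≤ J) (h0 : a < rk (fun x => ν x + w * x) J x0) (F : ℕ → ℝ)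
    (h : ∀ b < J - a, ∑ x ∈ range (J + 1),
      F x * (((x.choose b : ℕ) : ℝ) * ((ε⁻¹) ^ w) ^ (x - b)) = 0) :
    ∑ x ∈ range (J + 1), RR (fun x => ν x + w * x) J a x0 x *
      ε ^ ((ν x0 + w * x0) - (ν x + w * x)) * (ε ^ ν x * F x) = 0 := by
  classical
  set σ : ℕ → ℕ := fun x => ν x + w * x with hσd
  have h1 : ∀ b < J - a, ∑ x ∈ range (J + 1),
      (F x * ((ε⁻¹) ^ w) ^ x) * ((x.choose b : ℕ) : ℝ) = 0 := by
    intro b hb
    have h2 := h b hb
    have h3 : ∑ x ∈ range (J + 1), (F x * ((ε⁻¹) ^ w) ^ x) * ((x.choose b : ℕ) : ℝ) =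
        ((ε⁻¹) ^ w) ^ b * ∑ x ∈ range (J + 1),
          F x * (((x.choose b : ℕ) : ℝ) * ((ε⁻¹) ^ w) ^ (x - b)) := by
      rw [Finset.mul_sum]
      refine Finset.sum_congr rfl fun x _ => ?_
      rcases Nat.lt_or_ge x b with hx | hx
      · rw [Nat.choose_eq_zero_of_lt hx]
        simp
      · have h4 : ((ε⁻¹) ^ w) ^ x = ((ε⁻¹) ^ w) ^ b * ((ε⁻¹) ^ w) ^ (x - b) := by
          rw [← pow_add]
          congr 1
          omega
        rw [h4]
        ring
    rw [h3, h2, mul_zero]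
  have hcard := card_BB (σ := σ) (J := J) hσ a
  have hmem : x0 ∈ BB σ J a := by
    rw [BB, Finset.mem_filter, Finset.mem_range]
    exact ⟨by omega, h0⟩
  have hpos : 0 < (BB σ J a).card := Finset.card_pos.2 ⟨x0, hmem⟩
  have h2 := newton (J + 1) (J - a) _ h1 ((BB σ J a).erase x0) 0 (by
    rw [Finset.card_erase_of_mem hmem]
    omega)
  have h3 : ∑ x ∈ range (J + 1), RR σ J a x0 x *
      ε ^ (σ x0 - σ x) * (ε ^ ν x * F x) = ε ^ σ x0 * ∑ x ∈ range (J + 1),
        (F x * ((ε⁻¹) ^ w) ^ x) * (((x.choose 0 : ℕ) : ℝ) *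
          ∏ y ∈ (BB σ J a).erase x0, ((x : ℝ) - y)) := by
    rw [Finset.mul_sum]
    refine Finset.sum_congr rfl fun x hx => ?_
    rw [Finset.mem_range] at hx
    rw [Nat.choose_zero_right, Nat.cast_one, one_mul]
    change RR σ J a x0 x * _ * _ = ε ^ σ x0 * (_ * RR σ J a x0 x)
    by_cases hxx : x = x0 ∨ σ x < σ x0
    · have hle : σ x ≤ σ x0 := by
        rcases hxx with rfl | h5
        · exact le_rfl
        · exact h5.le
      have e1 : ε ^ σ x0 = ε ^ (σ x0 - σ x) * ε ^ σ x := by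
        rw [← pow_add]
        congr 1
        omega
      have e2 : ε ^ σ x * ((ε⁻¹) ^ w) ^ x = ε ^ ν x := by
        have e3 : σ x = ν x + w * x := rfl
        rw [e3, pow_add, mul_assoc, ← pow_mul, ← mul_pow, mul_inv_cancel₀ hε, one_pow, mul_one]
      rw [e1]
      linear_combination (-(RR σ J a x0 x * ε ^ (σ x0 - σ x) * F x)) * e2
    · push Not at hxx
      rw [RR_zero h0 (by omega) hxx.1 hxx.2]
      ring
  have h4 : ∀ x, ν x + w * x = σ x := fun _ => rfl
  simp only [h4]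
  rw [h3, h2, mul_zero]

end Pool.Agent.K7.H43.PT
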