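import Pool.Agent.K7.H43.PT.Types
import Pool.Agent.K7.H43.PW.Num
import Pool.Agent.TH176.FB.J24

/-!
Space: the criterion holds unless the virtual dimension is close to zero.
-/

set_option autoImplicit false

namespace Pool.Agent.K7.H43.PT

open MvPolynomial Finset Pool.Agent.H938R2 Pool.Agent.TH176.FB

lemma Hh_eq1 (t : ℕ) : ∀ n L : ℕ, L ≤ t → PW.Hh n t L = (L + n).choose (n + 1) := by
  intro n
  induction n with
  | zero => intro L _; rw [PW.Hh_zero]; simp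
  | succ n ih =>
    intro L hL
    rw [PW.Hh_succ, Finset.sum_congr rfl fun x _ => ih (L - x) (by omega)]
    exact le_antisymm (PW.hock1 n t L) (PW.hock2 n t L hL)

lemma Hh_eq2 (t : ℕ) : ∀ n M : ℕ, M ≤ t →
    PW.Hh n t (t + M) + n * (M + n).choose (n + 1) = (t + M + n).choose (n + 1) := by
  intro n
  induction n with
  | zero => intro M _; rw [PW.Hh_zero]; simp
  | succ n ih =>
    intro M hM
    rw [PW.Hh_succ]
    have key : ∀ x ∈ range t, PW.Hh n t (t + M - x) + n * (M - x + n).choose (n + 1) =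
        (t + M - x + n).choose (n + 1) := by
      intro x hx
      rw [Finset.mem_range] at hx
      rcases Nat.lt_or_ge x M with h | h
      · have h1 := ih (M - x) (by omega)
        have h2 : t + (M - x) = t + M - x := by omega
        rwa [h2] at h1
      · have h1 := Hh_eq1 t n (t + M - x) (by omega)
        have h2 : M - x = 0 := by omega
        rw [h2, zero_add, Nat.choose_succ_self, mul_zero]
        exact h1
    have h1 := Finset.sum_congr rfl key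
    rw [Finset.sum_add_distrib, ← Finset.mul_sum] at h1
    have h2 := le_antisymm (PW.hock1 n t M) (PW.hock2 n t M hM)
    have h3 := PW.hock3 n M t
    have e1 : M + (n + 1) = M + n + 1 := by ring
    have e2 : t + M + (n + 1) = t + M + n + 1 := by ring
    have e3 : n + 1 + 1 = n + 2 := by ring
    rw [e1, e2, e3]
    rw [h2] at h1
    have e4 : (n + 1) * (M + n + 1).choose (n + 2) =
      n * (M + n + 1).choose (n + 2) + (M + n + 1).choose (n + 2) := by ring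
    omega

lemma Hc_eq0 {n t c : ℕ} (hc : c < t) : Hc n t c = (c + (n + 1)).choose (n + 1) := by
  have h1 := Hh_eq1 t n (c + 1) hc
  have e1 : c + 1 + n = c + (n + 1) := by ring
  rwa [e1] at h1

lemma Hc_eq1 {n t c : ℕ} (hc : c < t) :
    Hc n t (t + c) + n * (c + (n + 1)).choose (n + 1) = (t + c + (n + 1)).choose (n + 1) := by
  have h1 := Hh_eq2 t n (c + 1) hc
  have e1 : c + 1 + n = c + (n + 1) := by ring
  have e2 : t + (c + 1) + n = t + c + (n + 1) := by ring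
  rw [e1, e2] at h1
  exact h1

/-- The sequence for space. -/
def rho (s v q : ℕ) : ℕ := if q = 0 then s - v else if q = 1 then v else 0

lemma sum_rho {m s v : ℕ} (hm : 2 ≤ m) (F : ℕ → ℕ) :
    ∑ q ∈ range m, rho s v q * F q = (s - v) * F 0 + v * F 1 := by
  obtain ⟨m, rfl⟩ : ∃ m', m = m' + 2 := ⟨m - 2, by omega⟩
  rw [Finset.sum_range_succ', Finset.sum_range_succ']
  have h1 : ∑ x ∈ range m, rho s v (x + 1 + 1) * F (x + 1 + 1) = 0 := by
    apply Finset.sum_eq_zero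
    intro x _
    unfold rho
    rw [if_neg (by omega), if_neg (by omega), zero_mul]
  rw [h1]
  simp only [rho, zero_add, if_true, Nat.one_ne_zero, if_false]
  ring

lemma sum_rho1 {m s v : ℕ} (hm : 2 ≤ m) (hv : v ≤ s) : ∑ q ∈ range m, rho s v q = s := by
  have h1 := sum_rho (s := s) (v := v) hm fun _ => 1
  simp only [mul_one] at h1
  omega

lemma Sk_zero {m r s v : ℕ} (hm : 2 ≤ m) (hv : v ≤ s) : Sk 2 m r (rho s v) 0 = s * m := by
  unfold Sk
  rw [sum_rho hm]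
  simp only [Nat.zero_le, if_true, mul_zero, add_zero, Nat.sub_zero]
  obtain ⟨w, rfl⟩ := Nat.exists_eq_add_of_le hv
  rw [Nat.add_sub_cancel_left]
  ring

lemma Sk_one {m r s v : ℕ} (hm : 2 ≤ m) (hv : v ≤ s) :
    Sk 2 m r (rho s v) 1 = v * (m - 1) + (r - 2 * s) := by
  unfold Sk
  rw [sum_rho hm, sum_rho1 hm hv]
  simp

lemma Sk_ge {m r s v k : ℕ} (hm : 2 ≤ m) (hv : v ≤ s) (hr : 2 * s ≤ r) (hk : 2 ≤ k) :
    Sk 2 m r (rho s v) k + 2 * s + 2 * v = r * k := by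
  unfold Sk
  rw [sum_rho hm, sum_rho1 hm hv]
  rw [if_neg (by omega), if_neg (by omega)]
  obtain ⟨w, rfl⟩ := Nat.exists_eq_add_of_le hv
  obtain ⟨r', rfl⟩ := Nat.exists_eq_add_of_le hr
  obtain ⟨k, rfl⟩ : ∃ k', k = k' + 2 := ⟨k - 2, by omega⟩
  have e1 : k + 2 - 0 - 1 = k + 1 := by omega
  have e2 : k + 2 - 1 - 1 = k := by omega
  rw [Nat.add_sub_cancel_left, Nat.add_sub_cancel_left, e1, e2]
  ring

/-- The numbers for space. -/
lemma nums {t c a : ℕ} (ht : t = c + a + 2) (ha : 1 ≤ a) :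
    6 * Hc 2 t c = (c + 1) * (c + 2) * (c + 3) ∧
    (∃ κ, 6 * κ = (a + 1) * a * (a - 1) ∧ Hc 2 t (t + c) + a * t ^ 2 = t ^ 3 + κ) ∧
    ∀ k, 2 ≤ k → Hc 2 t (t * k + c) + a * t ^ 2 = t ^ 3 * k := by
  have h0 : 6 * Hc 2 t c = (c + 1) * (c + 2) * (c + 3) := by
    rw [Hc_eq0 (by omega)]
    have h1 := PW.six_choose (c + 1)
    have e1 : c + 1 + 2 = c + (2 + 1) := by ring
    have e2 : (2 + 1 : ℕ) = 3 := rfl
    rw [e1, e2] at h1
    rw [e2, h1]
    ring
  refine ⟨h0, ⟨(a - 1 + 2).choose 3, ?_, ?_⟩, ?_⟩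
  · rw [PW.six_choose (a - 1)]
    obtain ⟨a, rfl⟩ : ∃ a', a = a' + 1 := ⟨a - 1, by omega⟩
    rw [Nat.add_sub_cancel]
  · have h1 := Hc_eq1 (n := 2) (t := t) (c := c) (by omega)
    rw [← Hc_eq0 (n := 2) (t := t) (c := c) (by omega)] at h1
    have h3 := PW.six_choose (t + c + 1)
    have e1 : t + c + 1 + 2 = t + c + (2 + 1) := by ring
    rw [e1] at h3
    have h4 := PW.six_choose (a - 1)
    obtain ⟨a, rfl⟩ : ∃ a', a = a' + 1 := ⟨a - 1, by omega⟩
    rw [Nat.add_sub_cancel] at h4 ⊢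
    have h5 : 6 * (Hc 2 t (t + c) + (a + 1) * t ^ 2) = 6 * (t ^ 3 + (a + 2).choose 3) := by
      have h6 : 6 * Hc 2 t (t + c) + 2 * (6 * Hc 2 t c) = 6 * (t + c + (2 + 1)).choose (2 + 1) := by
        omega
      rw [h0] at h6
      have e2 : (2 + 1 : ℕ) = 3 := rfl
      rw [e2] at h6 h3
      rw [h3] at h6
      have h7 : 6 * (t ^ 3 + (a + 2).choose 3) = 6 * t ^ 3 + (a + 2) * (a + 1) * a := by
        rw [Nat.mul_add, h4]
      rw [h7]
      subst ht
      zify at h6 ⊢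
      linear_combination h6
    omega
  · intro k hk
    have h1 := J24.two_Hc 2 t (t * k + c) (by
      have : t * 2 ≤ t * k := Nat.mul_le_mul_left _ hk
      omega)
    have h2 : 2 * (t * k + c + 1) - 2 * (t - 1) + 2 * a = 2 * (t * k) := by
      have : t * 2 ≤ t * k := Nat.mul_le_mul_left _ hk
      omega
    have h3 : 2 * (Hc 2 t (t * k + c) + a * t ^ 2) = 2 * (t ^ 3 * k) := by
      rw [Nat.mul_add, h1]
      calc t ^ 2 * (2 * (t * k + c + 1) - 2 * (t - 1)) + 2 * (a * t ^ 2)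
          = t ^ 2 * (2 * (t * k + c + 1) - 2 * (t - 1) + 2 * a) := by ring
        _ = 2 * (t ^ 3 * k) := by rw [h2]; ring
    omega

/-- Emptiness in space. -/
lemma band_zero {t m c a : ℕ} (ht : t = c + a + 2) (ha : 1 ≤ a) (hm : 2 ≤ m)
    (h : 2 * (t * m + c + 3).choose 3 + 3 * m * (m - 1) ≤ 2 * (t ^ 3 * (m + 2).choose 3)) :
    ForGeneral 4 (t ^ 3) (fun p =>
      Module.finrank ℂ (forms 4 (t * m + c) (fun _ => m) p) = 0) := by
  obtain ⟨h0, ⟨κ, hκ, h1⟩, h2⟩ := nums ht ha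
  obtain ⟨H0, hH0⟩ : ∃ H0, H0 = Hc 2 t c := ⟨_, rfl⟩
  obtain ⟨b, hb⟩ : ∃ b, b = a * t ^ 2 := ⟨_, rfl⟩
  rw [← hH0] at h0
  rw [← hb] at h1 h2
  obtain ⟨m, rfl⟩ : ∃ m', m = m' + 1 := ⟨m - 1, by omega⟩
  rw [Nat.add_sub_cancel] at h
  obtain ⟨a, rfl⟩ : ∃ a', a = a' + 1 := ⟨a - 1, by omega⟩
  rw [Nat.add_sub_cancel] at hκ
  -- the virtual dimension
  have hvd : 6 * (t * (m + 1) + c + 3).choose 3 + 3 * b * ((m + 1) * (m + 2)) =
      6 * (t ^ 3 * (m + 1 + 2).choose 3) + (m + 2) * (6 * H0) + (m + 1) * (6 * κ) := by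
    have e1 := PW.six_choose (t * (m + 1) + c + 1)
    have e2 := PW.six_choose (m + 1)
    have e3 : t * (m + 1) + c + 1 + 2 = t * (m + 1) + c + 3 := by ring
    rw [e3] at e1
    have e4 : 6 * (t ^ 3 * (m + 1 + 2).choose 3) = t ^ 3 * (6 * (m + 1 + 2).choose 3) := by ring
    rw [e1, e4, e2, h0, hκ, hb, ht]
    ring
  have hmain : 2 * ((m + 2) * H0) + 2 * ((m + 1) * κ) + 3 * ((m + 1) * m) ≤
      b * ((m + 1) * (m + 2)) := by
    have e1 : 3 * (m + 1) * m = 3 * ((m + 1) * m) := by ring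
    have e2 : 3 * b * ((m + 1) * (m + 2)) = 3 * (b * ((m + 1) * (m + 2))) := by ring
    have e3 : (m + 2) * (6 * H0) = 6 * ((m + 2) * H0) := by ring
    have e4 : (m + 1) * (6 * κ) = 6 * ((m + 1) * κ) := by ring
    rw [e2, e3, e4] at hvd
    rw [e1] at h
    omega
  obtain ⟨s, hs⟩ : ∃ s, s = (H0 + m) / (m + 1) := ⟨_, rfl⟩
  have hs1 : H0 ≤ s * (m + 1) := by
    rw [hs]
    have := Nat.div_add_mod (H0 + m) (m + 1)
    have h3 := Nat.mod_lt (H0 + m) (show 0 < m + 1 by omega)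
    have h4 : (H0 + m) / (m + 1) * (m + 1) = (m + 1) * ((H0 + m) / (m + 1)) := by ring
    omega
  have hs2 : s * (m + 1) ≤ H0 + m := by
    rw [hs]
    exact Nat.div_mul_le_self _ _
  have hκb : 6 * κ ≤ b := by
    rw [hκ, hb, ht]
    nlinarith [Nat.zero_le (a * a * c), Nat.zero_le (a * a), Nat.zero_le (a * c), Nat.zero_le (c * c * a), Nat.zero_le (c*c)]
  have hu : 2 * s ≤ b ∧ m * (m - 1) + 2 * ((m + 1) * κ) ≤ (m + 1) * (m + 2) * (b - 2 * s) := by
    have e1 : 2 * ((m + 2) * (s * (m + 1))) ≤ 2 * ((m + 2) * H0) + 2 * ((m + 2) * m) := by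
      have := Nat.mul_le_mul_left (m + 2) hs2
      rw [Nat.mul_add] at this
      linarith
    obtain ⟨m, rfl⟩ : ∃ m', m = m' + 1 := ⟨m - 1, by omega⟩
    rw [Nat.add_sub_cancel]
    have e2 : (m + 1) * m + 2 * ((m + 1 + 1) * κ) + 2 * ((m + 1 + 2) * (s * (m + 1 + 1))) ≤
        b * ((m + 1 + 1) * (m + 1 + 2)) := by nlinarith
    have e3 : 2 * s ≤ b := by
      by_contra hcon
      have e4 : b + 1 ≤ 2 * s := by omega
      have e5 := Nat.mul_le_mul_right ((m + 1 + 1) * (m + 1 + 2)) e4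
      nlinarith
    refine ⟨e3, ?_⟩
    obtain ⟨u, hu⟩ := Nat.exists_eq_add_of_le e3
    rw [hu, Nat.add_sub_cancel_left]
    rw [hu] at e2
    nlinarith
  obtain ⟨hu1, hu2⟩ := hu
  obtain ⟨u, hu⟩ := Nat.exists_eq_add_of_le hu1
  rw [hu, Nat.add_sub_cancel_left] at hu2
  obtain ⟨v, hv⟩ : ∃ v, v = min (u / 2) s := ⟨_, rfl⟩
  have hv1 : v ≤ s := hv ▸ min_le_right _ _
  have hv2 : 2 * v ≤ u := by
    have := min_le_left (u / 2) s
    omega
  have hkey : κ ≤ v * m + u := by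
    rcases Nat.lt_or_ge s (u / 2) with h3 | h3
    · have h4 : v = s := by rw [hv]; exact min_eq_right h3.le
      rw [h4]
      have h5 : s * 1 ≤ s * m := Nat.mul_le_mul_left _ (by omega)
      omega
    · have h4 : v = u / 2 := by rw [hv]; exact min_eq_left h3
      by_contra hcon
      have h5 : v * m + u + 1 ≤ κ := by omega
      have h6 : u ≤ 2 * v + 1 := by omega
      obtain ⟨m, rfl⟩ : ∃ m', m = m' + 1 := ⟨m - 1, by omega⟩
      rw [Nat.add_sub_cancel] at hu2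
      have h7 := Nat.mul_le_mul_left (2 * (m + 1 + 1)) h5
      have h8 := Nat.mul_le_mul_left ((m + 1 + 1) * (m + 1)) h6
      nlinarith
  have hr : 2 * s ≤ t ^ 3 := by
    have : b ≤ t ^ 3 := by
      rw [hb, pow_succ t 2, mul_comm (t ^ 2) t]
      exact Nat.mul_le_mul_right _ (by omega)
    omega
  have hm2 : 2 ≤ m + 1 := hm
  refine crit_zero (n := 2) (t := t) (m := m + 1) (c := c) (r := t ^ 3) (rho s v) (by omega)
    (by omega) (by omega) (by rw [sum_rho1 hm2 hv1]; exact hr) ?_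
  intro k _
  rcases Nat.lt_or_ge k 2 with hk | hk
  · interval_cases k
    · rw [mul_zero, zero_add, Sk_zero hm2 hv1, ← hH0]
      exact hs1
    · rw [mul_one, Sk_one hm2 hv1, Nat.add_sub_cancel]
      omega
  · have h3 := h2 k hk
    have h4 := Sk_ge (r := t ^ 3) hm2 hv1 hr hk
    omega

/-- Independence in space. -/
lemma band_ind {t m c a : ℕ} (ht : t = c + a + 2) (ha : 1 ≤ a) (hm : 2 ≤ m)
    (h : 2 * (t ^ 3 * (m + 2).choose 3) + 3 * m * (m - 1) ≤ 2 * (t * m + c + 3).choose 3) :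
    ForGeneral 4 (t ^ 3) (fun p =>
      Module.finrank ℂ (forms 4 (t * m + c) (fun _ => m) p) + t ^ 3 * (m + 2).choose 3 =
        (t * m + c + 3).choose 3) := by
  obtain ⟨h0, ⟨κ, hκ, h1⟩, h2⟩ := nums ht ha
  obtain ⟨H0, hH0⟩ : ∃ H0, H0 = Hc 2 t c := ⟨_, rfl⟩
  obtain ⟨b, hb⟩ : ∃ b, b = a * t ^ 2 := ⟨_, rfl⟩
  rw [← hH0] at h0
  rw [← hb] at h1 h2
  obtain ⟨m, rfl⟩ : ∃ m', m = m' + 1 := ⟨m - 1, by omega⟩
  rw [Nat.add_sub_cancel] at h
  obtain ⟨a, rfl⟩ : ∃ a', a = a' + 1 := ⟨a - 1, by omega⟩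
  rw [Nat.add_sub_cancel] at hκ
  have hvd : 6 * (t * (m + 1) + c + 3).choose 3 + 3 * b * ((m + 1) * (m + 2)) =
      6 * (t ^ 3 * (m + 1 + 2).choose 3) + (m + 2) * (6 * H0) + (m + 1) * (6 * κ) := by
    have e1 := PW.six_choose (t * (m + 1) + c + 1)
    have e2 := PW.six_choose (m + 1)
    have e3 : t * (m + 1) + c + 1 + 2 = t * (m + 1) + c + 3 := by ring
    rw [e3] at e1
    have e4 : 6 * (t ^ 3 * (m + 1 + 2).choose 3) = t ^ 3 * (6 * (m + 1 + 2).choose 3) := by ring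
    rw [e1, e4, e2, h0, hκ, hb, ht]
    ring
  have hmain : b * ((m + 1) * (m + 2)) + 3 * ((m + 1) * m) ≤
      2 * ((m + 2) * H0) + 2 * ((m + 1) * κ) := by
    have e1 : 3 * (m + 1) * m = 3 * ((m + 1) * m) := by ring
    have e2 : 3 * b * ((m + 1) * (m + 2)) = 3 * (b * ((m + 1) * (m + 2))) := by ring
    have e3 : (m + 2) * (6 * H0) = 6 * ((m + 2) * H0) := by ring
    have e4 : (m + 1) * (6 * κ) = 6 * ((m + 1) * κ) := by ring
    rw [e2, e3, e4] at hvd
    rw [e1] at h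
    omega
  obtain ⟨s0, hs⟩ : ∃ s0, s0 = H0 / (m + 1) := ⟨_, rfl⟩
  have hs1 : s0 * (m + 1) ≤ H0 := by
    rw [hs]
    exact Nat.div_mul_le_self _ _
  have hs2 : H0 ≤ s0 * (m + 1) + m := by
    rw [hs]
    have := Nat.div_add_mod H0 (m + 1)
    have h3 := Nat.mod_lt H0 (show 0 < m + 1 by omega)
    have h4 : H0 / (m + 1) * (m + 1) = (m + 1) * (H0 / (m + 1)) := by ring
    omega
  have hκb : 6 * κ ≤ b := by
    rw [hκ, hb, ht]
    nlinarith [Nat.zero_le (a * a * c), Nat.zero_le (a * a), Nat.zero_le (a * c), Nat.zero_le (c * c * a), Nat.zero_le (c*c)]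
  have hbt : b + 1 ≤ t ^ 3 := by
    have e1 : (a + 1) * t ^ 2 + t ^ 2 ≤ t ^ 3 := by
      have e2 : (a + 1) * t ^ 2 + t ^ 2 = (a + 2) * t ^ 2 := by ring
      rw [e2, pow_succ t 2, mul_comm (t ^ 2) t]
      exact Nat.mul_le_mul_right _ (by omega)
    have e3 : 0 < t ^ 2 := pow_pos (by omega) _
    omega
  have hm2 : 2 ≤ m + 1 := hm
  -- the choice of the numbers
  obtain ⟨s, v, hv1, hsH, hr, hk1, hk2⟩ : ∃ s v, v ≤ s ∧ s * (m + 1) ≤ H0 ∧ 2 * s ≤ t ^ 3 ∧
      v * m + b ≤ κ + 2 * s ∧ b ≤ 2 * s + 2 * v := by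
    rcases Nat.lt_or_ge (2 * s0) b with hlt | hge
    · obtain ⟨u, hu⟩ := Nat.exists_eq_add_of_le hlt.le
      obtain ⟨v, hv⟩ : ∃ v, v = (u + 1) / 2 := ⟨_, rfl⟩
      have hu2 : m * (m - 1) + (m + 1) * (m + 2) * u ≤ 2 * ((m + 1) * κ) := by
        obtain ⟨m, rfl⟩ : ∃ m', m = m' + 1 := ⟨m - 1, by omega⟩
        rw [Nat.add_sub_cancel]
        have e1 := Nat.mul_le_mul_left (2 * (m + 1 + 2)) hs2
        rw [hu] at hmain
        nlinarith
      have hkey : v * m + u ≤ κ := by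
        by_contra hcon
        have h5 : κ + 1 ≤ v * m + u := by omega
        have h6 : 2 * v ≤ u + 1 := by omega
        obtain ⟨m, rfl⟩ : ∃ m', m = m' + 1 := ⟨m - 1, by omega⟩
        rw [Nat.add_sub_cancel] at hu2
        have h7 := Nat.mul_le_mul_left (2 * (m + 1 + 1)) h5
        have h8 := Nat.mul_le_mul_left ((m + 1 + 1) * (m + 1)) h6
        nlinarith
      have hvm : v * 1 ≤ v * m := Nat.mul_le_mul_left _ (by omega)
      exact ⟨s0, v, by omega, hs1, by omega, by omega, by omega⟩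
    · refine ⟨(b + 1) / 2, 0, Nat.zero_le _, ?_, by omega, by omega, by omega⟩
      refine le_trans (Nat.mul_le_mul_right _ ?_) hs1
      omega
  refine crit_ind (n := 2) (t := t) (m := m + 1) (c := c) (r := t ^ 3) (rho s v) (by omega)
    (by omega) (by omega) (by rw [sum_rho1 hm2 hv1]; exact hr) ?_
  intro k _
  rcases Nat.lt_or_ge k 2 with hk | hk
  · interval_cases k
    · rw [mul_zero, zero_add, Sk_zero hm2 hv1, ← hH0]
      exact hsH
    · rw [mul_one, Sk_one hm2 hv1, Nat.add_sub_cancel]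
      omega
  · have h3 := h2 k hk
    have h4 := Sk_ge (r := t ^ 3) hm2 hv1 hr hk
    omega

end Pool.Agent.K7.H43.PT
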