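import Pool.Agent.K7.H43.PT.Crit

/-!
The types of points: a sequence of scales.
-/

set_option autoImplicit false

namespace Pool.Agent.K7.H43.PT

open MvPolynomial Finset Pool.Agent.H938R2 Pool.Agent.TH176.FB Pool.Agent.TH176.FB.J13
  Pool.Agent.TH176.FB.J17 Pool.Agent.Y55.Col

/-- The size of an exponent. -/
noncomputable def nuf {n : ℕ} (m : ℕ) (γ : Fin n →₀ ℕ) : ℕ :=
  (m + 2) ^ m * (m - γ.degree) + (m + 2) ^ γ.degree

/-- The weights. -/
def wtf (m q : ℕ) : ℕ := (m + 2) ^ m - (m + 2) ^ (m - q)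

/-- The sizes in a slice. -/
def sig (m q e x : ℕ) : ℕ :=
  (m + 2) ^ m * (m - (e + x)) + (m + 2) ^ (e + x) + ((m + 2) ^ m - (m + 2) ^ (m - q)) * x

lemma sig_iff {m q e x y : ℕ} (hxy : x < y) (hy : e + y ≤ m) :
    (sig m q e x < sig m q e y ↔ (m + 2) ^ (m - q) * (y - x) + (m + 2) ^ (e + x) <
      (m + 2) ^ (e + y)) ∧
    (sig m q e y < sig m q e x ↔ (m + 2) ^ (e + y) <
      (m + 2) ^ (m - q) * (y - x) + (m + 2) ^ (e + x)) := by
  obtain ⟨z, rfl⟩ : ∃ z, y = x + z := ⟨y - x, by omega⟩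
  rw [Nat.add_sub_cancel_left]
  unfold sig
  obtain ⟨v, hv⟩ : ∃ v, m = e + (x + z) + v := ⟨m - (e + (x + z)), by omega⟩
  have hPW : (m + 2) ^ (m - q) ≤ (m + 2) ^ m := Nat.pow_le_pow_right (by omega) (by omega)
  obtain ⟨W, hW⟩ : ∃ W, W = (m + 2) ^ m := ⟨_, rfl⟩
  obtain ⟨P, hP⟩ : ∃ P, P = (m + 2) ^ (m - q) := ⟨_, rfl⟩
  obtain ⟨U, hU⟩ : ∃ U, U = (m + 2) ^ (e + x) := ⟨_, rfl⟩
  obtain ⟨V, hV⟩ : ∃ V, V = (m + 2) ^ (e + (x + z)) := ⟨_, rfl⟩
  rw [← hW, ← hP] at hPW ⊢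
  rw [← hU, ← hV]
  obtain ⟨D, hD⟩ : ∃ D, W = P + D := Nat.exists_eq_add_of_le hPW
  have e1 : m - (e + x) = v + z := by omega
  have e2 : m - (e + (x + z)) = v := by omega
  have e3 : W - P = D := by omega
  rw [e1, e2, e3]
  have e4 : W * (v + z) = W * v + (P * z + D * z) := by rw [hD]; ring
  have e5 : D * (x + z) = D * x + D * z := by ring
  rw [e4, e5]
  constructor <;> constructor <;> intro h <;> omega

lemma sig_lt1 {m q e x y : ℕ} (hxy : x < y) (hy : e + y ≤ m) (h : m < e + y + q) :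
    sig m q e x < sig m q e y := by
  rw [(sig_iff hxy hy).1]
  obtain ⟨X, hX⟩ : ∃ X, X = (m + 2) ^ (e + y - 1) := ⟨_, rfl⟩
  have hV : (m + 2) ^ (e + y) = (m + 2) * X := by
    rw [hX, ← pow_succ']
    congr 1
    omega
  have hP : (m + 2) ^ (m - q) ≤ X := hX ▸ Nat.pow_le_pow_right (by omega) (by omega)
  have hU : (m + 2) ^ (e + x) ≤ X := hX ▸ Nat.pow_le_pow_right (by omega) (by omega)
  have hXpos : 0 < X := hX ▸ pow_pos (by omega) _
  rw [hV]
  have h1 : (m + 2) ^ (m - q) * (y - x) ≤ X * m := Nat.mul_le_mul hP (by omega)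
  have h2 : (m + 2) * X = X * m + 2 * X := by ring
  omega

lemma sig_lt2 {m q e x y : ℕ} (hxy : x < y) (h : e + y + q ≤ m) :
    sig m q e y < sig m q e x := by
  rw [(sig_iff hxy (by omega)).2]
  have hV : (m + 2) ^ (e + y) ≤ (m + 2) ^ (m - q) := Nat.pow_le_pow_right (by omega) (by omega)
  have hU : 0 < (m + 2) ^ (e + x) := pow_pos (by omega) _
  have h1 : (m + 2) ^ (m - q) * 1 ≤ (m + 2) ^ (m - q) * (y - x) :=
    Nat.mul_le_mul_left _ (by omega)
  omega

lemma sig_inj {m q e x y : ℕ} (hx : e + x ≤ m) (hy : e + y ≤ m)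
    (h : sig m q e x = sig m q e y) : x = y := by
  rcases lt_trichotomy x y with h1 | h1 | h1
  · rcases Nat.lt_or_ge m (e + y + q) with h2 | h2
    · have := sig_lt1 h1 hy h2
      omega
    · have := sig_lt2 h1 h2
      omega
  · exact h1
  · rcases Nat.lt_or_ge m (e + x + q) with h2 | h2
    · have := sig_lt1 h1 hx h2
      omega
    · have := sig_lt2 h1 h2
      omega

lemma sizes {n m q : ℕ} (γ : Fin n →₀ ℕ) (l : Fin n) (x : ℕ) :
    nuf m (γ.update l x) + wtf m q * x = sig m q (γ.degree - γ l) x := by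
  have h1 := PW.degree_update γ l x
  have h2 := PW.le_degree γ l
  have h3 : (γ.update l x).degree = γ.degree - γ l + x := by omega
  unfold nuf wtf sig
  rw [h3]

lemma cn_eq {n m E q : ℕ} (γ : Fin n →₀ ℕ) (l : Fin n) (hγ : γ.degree ≤ m + E)
    (hq : q ≤ m + E) :
    cn m E (nuf (m + E)) l (wtf (m + E) q) γ =
      (if m + E - γ.degree < q then γ l else m + E - γ.degree - q) - E := by
  classical
  obtain ⟨L, hL⟩ : ∃ L, L = m + E := ⟨_, rfl⟩
  unfold cn rk
  rw [← hL] at hγ hq ⊢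
  congr 1
  simp only [sizes]
  have h2 := PW.le_degree γ l
  obtain ⟨e, he⟩ : ∃ e, e = γ.degree - γ l := ⟨_, rfl⟩
  rw [← he]
  split_ifs with h
  · have h3 : (range (L - γ.degree + γ l + 1)).filter
        (fun y => sig L q e y < sig L q e (γ l)) = range (γ l) := by
      ext y
      rw [Finset.mem_filter, Finset.mem_range, Finset.mem_range]
      constructor
      · rintro ⟨h4, h5⟩
        by_contra h6
        rcases Nat.lt_or_ge (γ l) y with h7 | h7
        · have := sig_lt1 (m := L) (q := q) (e := e) h7 (by omega) (by omega)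
          omega
        · have h8 : y = γ l := by omega
          rw [h8] at h5
          omega
      · intro h4
        exact ⟨by omega, sig_lt1 h4 (by omega) (by omega)⟩
    rw [h3, Finset.card_range]
  · have h3 : (range (L - γ.degree + γ l + 1)).filter
        (fun y => sig L q e y < sig L q e (γ l)) = Finset.Ioc (γ l) (L - q - e) := by
      ext y
      rw [Finset.mem_filter, Finset.mem_range, Finset.mem_Ioc]
      constructor
      · rintro ⟨h4, h5⟩
        rcases lt_trichotomy y (γ l) with h7 | h7 | h7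
        · have := sig_lt2 (m := L) (q := q) (e := e) h7 (by omega)
          omega
        · rw [h7] at h5
          omega
        · refine ⟨h7, ?_⟩
          by_contra h8
          have := sig_lt1 (m := L) (q := q) (e := e) h7 (by omega) (by omega)
          omega
      · rintro ⟨h4, h5⟩
        exact ⟨by omega, sig_lt2 h4 (by omega)⟩
    rw [h3, Nat.card_Ioc]
    omega

/-- The group of an index. -/
def grp {n m : ℕ} (j : Fin (n * m)) : Fin n × Fin m := finProdFinEquiv.symm j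

lemma sum_grp {n m : ℕ} (F : Fin n × Fin m → ℕ) :
    ∑ j : Fin (n * m), F (grp j) = ∑ l : Fin n, ∑ q : Fin m, F (l, q) := by
  unfold grp
  rw [Equiv.sum_comp (finProdFinEquiv.symm : Fin (n * m) ≃ Fin n × Fin m) F,
    Fintype.sum_prod_type]

lemma sum_s {n m : ℕ} (ρ : ℕ → ℕ) :
    ∑ j : Fin (n * m), ρ (grp j).2 = n * ∑ q ∈ range m, ρ q := by
  rw [sum_grp (fun p : Fin n × Fin m => ρ p.2)]
  simp only [Finset.sum_const, Finset.card_univ, Fintype.card_fin, smul_eq_mul]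
  rw [Fin.sum_univ_eq_sum_range (fun q => ρ q) m]

/-- The number of conditions on a coefficient of level `k`. -/
def Sk (n m r : ℕ) (ρ : ℕ → ℕ) (k : ℕ) : ℕ :=
  ∑ q ∈ range m, ρ q * (if k ≤ q then m - k else n * (k - q - 1)) +
    (r - n * ∑ q ∈ range m, ρ q) * k

/-- A lower bound for the number of conditions on a coefficient of level `k - E`. -/
def SkE (n m E r : ℕ) (ρ : ℕ → ℕ) (k : ℕ) : ℕ :=
  ∑ q ∈ range (m + E), ρ q * (if k ≤ q then m + E - k - n * E else n * (k - q - 1 - E)) +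
    (r - n * ∑ q ∈ range (m + E), ρ q) * (k - E)

lemma Sg_eq {n m r : ℕ} (ρ : ℕ → ℕ) (γ : Fin n →₀ ℕ) (hγ : γ.degree ≤ m) :
    Sg (N := n * m) m 0 r (fun j => ρ (grp j).2) (fun j => (grp j).1)
      (fun j => wtf m (((grp j).2 : ℕ) + 1)) (nuf m) γ = Sk n m r ρ (m - γ.degree) := by
  unfold Sg Sk
  rw [sum_s]
  congr 1
  rw [sum_grp (fun p : Fin n × Fin m => ρ p.2 * cn m 0 (nuf m) p.1 (wtf m ((p.2 : ℕ) + 1)) γ),
    Finset.sum_comm, ← Fin.sum_univ_eq_sum_range
      (fun q => ρ q * (if m - γ.degree ≤ q then m - (m - γ.degree)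
        else n * (m - γ.degree - q - 1))) m]
  refine Finset.sum_congr rfl fun q _ => ?_
  change ∑ x : Fin n, ρ (q : ℕ) * cn m 0 (nuf m) x (wtf m ((q : ℕ) + 1)) γ = _
  rw [← Finset.mul_sum]
  congr 1
  have key : ∀ x : Fin n, cn m 0 (nuf m) x (wtf m ((q : ℕ) + 1)) γ =
      (if m + 0 - γ.degree < (q : ℕ) + 1 then γ x else m + 0 - γ.degree - ((q : ℕ) + 1)) - 0 :=
    fun x => cn_eq (E := 0) γ x hγ (show (q : ℕ) + 1 ≤ m by omega)
  rw [Finset.sum_congr rfl fun x _ => key x]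
  simp only [Nat.sub_zero, Nat.add_zero]
  split_ifs with h1 h2 h2
  · rw [← Finsupp.degree_eq_sum]
    omega
  · omega
  · omega
  · rw [Finset.sum_const, Finset.card_univ, Fintype.card_fin, smul_eq_mul]
    congr 1

lemma Sg_ge {n m E r : ℕ} (ρ : ℕ → ℕ) (γ : Fin n →₀ ℕ) (hγ : γ.degree ≤ m + E) :
    SkE n m E r ρ (m + E - γ.degree) ≤
    Sg (N := n * (m + E)) m E r (fun j => ρ (grp j).2) (fun j => (grp j).1)
      (fun j => wtf (m + E) (((grp j).2 : ℕ) + 1)) (nuf (m + E)) γ := by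
  unfold Sg SkE
  rw [sum_s]
  refine Nat.add_le_add ?_ (Nat.mul_le_mul_left _ (by omega))
  rw [sum_grp (fun p : Fin n × Fin (m + E) => ρ p.2 *
      cn m E (nuf (m + E)) p.1 (wtf (m + E) ((p.2 : ℕ) + 1)) γ),
    Finset.sum_comm, ← Fin.sum_univ_eq_sum_range
      (fun q => ρ q * (if m + E - γ.degree ≤ q then m + E - (m + E - γ.degree) - n * E
        else n * (m + E - γ.degree - q - 1 - E))) (m + E)]
  refine Finset.sum_le_sum fun q _ => ?_
  change _ ≤ ∑ x : Fin n, ρ (q : ℕ) * cn m E (nuf (m + E)) x (wtf (m + E) ((q : ℕ) + 1)) γ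
  rw [← Finset.mul_sum]
  refine Nat.mul_le_mul_left _ ?_
  rw [Finset.sum_congr rfl fun x _ =>
    cn_eq γ x hγ (show (q : ℕ) + 1 ≤ m + E by omega)]
  split_ifs with h1 h2 h2
  · have h3 : γ.degree ≤ ∑ x : Fin n, (γ x - E) + n * E := by
      rw [Finsupp.degree_eq_sum]
      have h4 : n * E = ∑ _x : Fin n, E := by
        rw [Finset.sum_const, Finset.card_univ, Fintype.card_fin, smul_eq_mul]
      rw [h4, ← Finset.sum_add_distrib]
      exact Finset.sum_le_sum fun x _ => by omega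
    omega
  · omega
  · omega
  · rw [Finset.sum_const, Finset.card_univ, Fintype.card_fin, smul_eq_mul]
    exact Nat.mul_le_mul_left _ (by omega)

lemma hHν {n m E : ℕ} : Hν (N := n * (m + E)) m E (fun j => (grp j).1)
    (fun j => wtf (m + E) (((grp j).2 : ℕ) + 1)) (nuf (m + E) : (Fin n →₀ ℕ) → ℕ) := by
  intro j γ hγ x hx y hy h
  rw [sizes, sizes] at h
  have h2 := PW.le_degree γ (grp j).1
  have hx' : x ≤ m + E - γ.degree + γ (grp j).1 := hx
  have hy' : y ≤ m + E - γ.degree + γ (grp j).1 := hy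
  exact sig_inj (by omega) (by omega) h

/-- The criterion for emptiness. -/
theorem crit_zero {n t m c r : ℕ} (ρ : ℕ → ℕ) (ht : 1 ≤ t) (hc : c < t) (hm : 1 ≤ m)
    (hr : n * ∑ q ∈ range m, ρ q ≤ r)
    (h : ∀ k, k ≤ m → Hc n t (t * k + c) ≤ Sk n m r ρ k) :
    ForGeneral (n + 2) r (fun p =>
      Module.finrank ℂ (forms (n + 2) (t * m + c) (fun _ => m) p) = 0) := by
  have h1 := gen_zero (r := r) (E := 0) (N := n * m) (fun j => ρ (grp j).2) (fun j => (grp j).1)
    (fun j => wtf m (((grp j).2 : ℕ) + 1)) (nuf m) ht hc hm (by rw [sum_s]; exact hr)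
    (hHν (E := 0)) (fun γ hγ => by
      rw [Sg_eq (m := m) (r := r) ρ γ hγ]
      exact h _ (by omega))
  rwa [Nat.mul_zero, Nat.zero_add] at h1

/-- The criterion for emptiness in higher degrees. -/
theorem crit_zeroE {n t m c r E : ℕ} (ρ : ℕ → ℕ) (ht : 1 ≤ t) (hc : c < t) (hm : 1 ≤ m)
    (hr : n * ∑ q ∈ range (m + E), ρ q ≤ r)
    (h : ∀ k, k ≤ m + E → Hc n t (t * k + c) ≤ SkE n m E r ρ k) :
    ForGeneral (n + 2) r (fun p =>
      Module.finrank ℂ (forms (n + 2) (t * m + (t * E + c)) (fun _ => m) p) = 0) :=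
  gen_zero (E := E) (N := n * (m + E)) (fun j => ρ (grp j).2) (fun j => (grp j).1)
    (fun j => wtf (m + E) (((grp j).2 : ℕ) + 1)) (nuf (m + E)) ht hc hm
    (by rw [sum_s]; exact hr) hHν
    (fun γ hγ => (h _ (by omega)).trans (Sg_ge ρ γ hγ))

/-- The criterion for independence. -/
theorem crit_ind {n t m c r : ℕ} (ρ : ℕ → ℕ) (ht : 1 ≤ t) (hc : c < t) (hm : 1 ≤ m)
    (hr : n * ∑ q ∈ range m, ρ q ≤ r)
    (h : ∀ k, k ≤ m → Sk n m r ρ k ≤ Hc n t (t * k + c)) :
    ForGeneral (n + 2) r (fun p =>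
      Module.finrank ℂ (forms (n + 2) (t * m + c) (fun _ => m) p) +
        r * (m + n).choose (n + 1) = (t * m + c + (n + 1)).choose (n + 1)) := by
  have h1 := gen_ind (r := r) (E := 0) (N := n * m) (fun j => ρ (grp j).2) (fun j => (grp j).1)
    (fun j => wtf m (((grp j).2 : ℕ) + 1)) (nuf m) ht hc hm (by rw [sum_s]; exact hr)
    (hHν (E := 0)) (fun γ hγ => by
      rw [Sg_eq (m := m) (r := r) ρ γ hγ]
      exact h _ (by omega))
  rwa [Nat.mul_zero, Nat.zero_add] at h1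

end Pool.Agent.K7.H43.PT
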